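import Pool.Agent.Lib.MP_1a91b9_nuT.DB.El
import Pool.Agent.Lib.MP_1a91b9_nuT.DB.Od
import Pool.Agent.Lib.MP_1a91b9_nuX.DB.Pd

/-!
# DB: divisor classes, the action of the Galois group (curve-free half)
-/

set_option autoImplicit false

namespace Pool.Agent.Lib.MP_1a91b9_nuT.DB

open NumberField IsDedekindDomain Polynomial Pool.Agent.Lib.MP_1a91b9_nuX.DB

universe u

variable [CD]

noncomputable section

/-- divisors -/
abbrev DD (N : Type u) [Field N] : Type u := HeightOneSpectrum (𝓞 N) →₀ ℤ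

/-- the divisor of an element -/
def dv (N : Type u) [Field N] [NumberField N] : Additive Nˣ →+ DD N where
  toFun y := Finsupp.ofSupportFinite (fun w => od w ((Additive.toMul y : Nˣ) : N))
    (od_finite (Additive.toMul y : Nˣ).ne_zero)
  map_zero' := by
    ext w
    exact od_one w
  map_add' := by
    intro a b
    ext w
    exact od_mul w (Additive.toMul a : Nˣ).ne_zero (Additive.toMul b : Nˣ).ne_zero

theorem dv_apply {N : Type u} [Field N] [NumberField N] (y : Additive Nˣ)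
    (w : HeightOneSpectrum (𝓞 N)) : dv N y w = od w ((Additive.toMul y : Nˣ) : N) := rfl

/-- the divisor class group -/
abbrev CC (N : Type u) [Field N] [NumberField N] : Type u := DD N ⧸ (dv N).range

open nonZeroDivisors in
private theorem cla_count {N : Type u} [Field N] [NumberField N]
    (w : HeightOneSpectrum (𝓞 N)) {x : N} (hx : x ≠ 0) :
    FractionalIdeal.count N w (FractionalIdeal.spanSingleton (𝓞 N)⁰ x) = od w x := by
  classical
  obtain ⟨a, b, hb, rfl⟩ := IsFractionRing.div_surjective (A := 𝓞 N) x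
  have hb0 : b ≠ 0 := nonZeroDivisors.ne_zero hb
  have ha0 : a ≠ 0 := by
    rintro rfl
    exact hx (by rw [map_zero, zero_div])
  have hne : FractionalIdeal.spanSingleton (𝓞 N)⁰ (algebraMap (𝓞 N) N a / algebraMap (𝓞 N) N b) ≠
      0 := by
    rw [Ne, FractionalIdeal.spanSingleton_eq_zero_iff]
    exact hx
  rw [FractionalIdeal.count_well_defined (K := N) w hne (a := b) (J := Ideal.span {a})]
  · rw [od, map_div₀, HeightOneSpectrum.valuation_of_algebraMap,
      HeightOneSpectrum.valuation_of_algebraMap, w.intValuation_if_neg ha0,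
      w.intValuation_if_neg hb0, WithZero.log_div WithZero.exp_ne_zero WithZero.exp_ne_zero,
      WithZero.log_exp, WithZero.log_exp]
    ring
  · rw [FractionalIdeal.coeIdeal_span_singleton, FractionalIdeal.spanSingleton_mul_spanSingleton,
      div_eq_inv_mul]

open nonZeroDivisors in
theorem finite_cc (N : Type u) [Field N] [NumberField N] : Finite (CC N) := by
  classical
  let J : DD N → FractionalIdeal (𝓞 N)⁰ N := fun D =>
    D.prod (fun w n => (w.asIdeal : FractionalIdeal (𝓞 N)⁰ N) ^ n)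
  have hJ0 : ∀ D, J D ≠ 0 := by
    intro D
    change ∏ w ∈ D.support, (w.asIdeal : FractionalIdeal (𝓞 N)⁰ N) ^ (D w) ≠ 0
    rw [Finset.prod_ne_zero_iff]
    intro w _
    exact zpow_ne_zero _ (FractionalIdeal.coeIdeal_ne_zero.mpr w.ne_bot)
  have hJc : ∀ D w, FractionalIdeal.count N w (J D) = D w := fun D w =>
    FractionalIdeal.count_finsuppProd N w D
  let c : DD N → (FractionalIdeal (𝓞 N)⁰ N)ˣ ⧸ (toPrincipalIdeal (𝓞 N) N).range := fun D =>
    QuotientGroup.mk (Units.mk0 (J D) (hJ0 D))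
  have hfin : Finite ((FractionalIdeal (𝓞 N)⁰ N)ˣ ⧸ (toPrincipalIdeal (𝓞 N) N).range) :=
    Finite.of_equiv _ (ClassGroup.equiv (R := 𝓞 N) N).toEquiv
  have hc : ∀ D D' : DD N, c D = c D' → (QuotientAddGroup.mk D : CC N) = QuotientAddGroup.mk D' := by
    intro D D' h
    have h1 := QuotientGroup.eq.mp h
    obtain ⟨x, hx⟩ := h1
    rw [toPrincipalIdeal_eq_iff] at hx
    rw [QuotientAddGroup.eq]
    refine ⟨Additive.ofMul x, ?_⟩
    ext w
    have h2 := cla_count w x.ne_zero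
    rw [hx, Units.val_mul, Units.val_inv_eq_inv_val, Units.val_mk0, Units.val_mk0,
      FractionalIdeal.count_mul N w (inv_ne_zero (hJ0 D)) (hJ0 D'), FractionalIdeal.count_inv,
      hJc, hJc] at h2
    exact h2.symm
  apply Finite.of_injective (fun x : CC N => c (Quotient.out x))
  intro x y hxy
  have h1 := hc _ _ hxy
  have h2 : ∀ x : CC N, (QuotientAddGroup.mk (Quotient.out x) : CC N) = x := fun x =>
    Quotient.out_eq x
  rw [h2, h2] at h1
  exact h1

section
variable {k N : Type u} [Field k] [NumberField k] [Field N] [NumberField N] [Algebra k N]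

/-- the action of an automorphism on divisors -/
def tauD (σ : Gal(N/k)) : DD N →+ DD N := Finsupp.mapDomain.addMonoidHom (gpl σ)

theorem tauD_apply (σ : Gal(N/k)) (D : DD N) (w : HeightOneSpectrum (𝓞 N)) :
    tauD σ D (gpl σ w) = D w := by
  refine Finsupp.mapDomain_apply ?_ D w
  intro a b hab
  have h1 : gpl σ⁻¹ (gpl σ a) = gpl σ⁻¹ (gpl σ b) := congrArg _ hab
  rw [← gpl_mul, ← gpl_mul, inv_mul_cancel, gpl_one, gpl_one] at h1
  exact h1

theorem tauD_dv (σ : Gal(N/k)) (y : Nˣ) : tauD σ (dv N (Additive.ofMul y)) =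
    dv N (Additive.ofMul (sg σ y)) := by
  ext w
  have hw : w = gpl σ (gpl σ⁻¹ w) := by rw [← gpl_mul, mul_inv_cancel, gpl_one]
  rw [hw, tauD_apply, dv_apply, dv_apply]
  exact (gpl_od σ (gpl σ⁻¹ w) (y : N)).symm

/-- the action of an automorphism on divisor classes -/
def tauC (σ : Gal(N/k)) : CC N →+ CC N :=
  QuotientAddGroup.map _ _ (tauD σ) (by
    rintro _ ⟨y, rfl⟩
    exact ⟨Additive.ofMul (sg σ (Additive.toMul y)), (tauD_dv σ (Additive.toMul y)).symm⟩)

theorem tauC_single (σ : Gal(N/k)) (w : HeightOneSpectrum (𝓞 N)) :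
    tauC σ (QuotientAddGroup.mk (Finsupp.single w 1) : CC N) =
      (QuotientAddGroup.mk (Finsupp.single (gpl σ w) 1) : CC N) := by
  have h1 : tauD σ (Finsupp.single w 1) = Finsupp.single (gpl σ w) 1 := Finsupp.mapDomain_single
  rw [← h1]
  rfl


end

theorem naka {A C : Type*} [CommRing A] [AddCommGroup C] [Module A C] [Module.Finite A C]
    (J : Ideal A) {x : C} (hx0 : x ≠ 0) (hx : ∀ a ∈ J, a • x = 0) :
    J • (⊤ : Submodule A C) ≠ ⊤ := by
  intro htop
  obtain ⟨r, hr, hr0⟩ := Submodule.exists_sub_one_mem_and_smul_eq_zero_of_fg_of_le_smul J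
    (⊤ : Submodule A C) Module.Finite.fg_top (le_of_eq htop.symm)
  have h1 : r • x = 0 := hr0 x Submodule.mem_top
  have h2 : (r - 1) • x = 0 := hx _ hr
  apply hx0
  have h3 : x = r • x - (r - 1) • x := by
    rw [sub_smul, one_smul]
    abel
  rw [h3, h1, h2, sub_zero]

private theorem clb_form0 {k : Type*} [Field k] {Q : Type*} [AddCommGroup Q] [Module k Q]
    {v : Q} (hv : v ≠ 0) : ∃ ψ : Q →+ k, ψ v ≠ 0 := by
  by_contra hcon
  push Not at hcon
  refine hv ((Module.forall_dual_apply_eq_zero_iff k v).1 (fun φ => ?_))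
  exact hcon φ.toAddMonoidHom

private theorem clb_form {ℓ : ℕ} [Fact ℓ.Prime] {Q : Type*} [AddCommGroup Q]
    (hl : ∀ v : Q, ℓ • v = 0) {v : Q} (hv : v ≠ 0) : ∃ ψ : Q →+ ZMod ℓ, ψ v ≠ 0 :=
  @clb_form0 _ (ZMod ℓ) _ Q _ (AddCommGroup.zmodModule hl) v hv

theorem exists_fun {ϖ : 𝓞 K} {ℓ q : ℕ} (h : PD ϖ ℓ q) {g : 𝓞 K} {C : Type*} [AddCommGroup C]
    [Finite C] (τ : Module.End ℤ C) {x : C} (hx0 : x ≠ 0)
    (hx : ∀ f : ℤ[X], ϖ ∣ aeval g f → aeval τ f x = 0) :
    ∃ φ : C →+ ZMod ℓ, φ ≠ 0 ∧ ∀ (f : ℤ[X]) (y : C), ϖ ∣ aeval g f → φ (aeval τ f y) = 0 := by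
  have : Fact ℓ.Prime := ⟨h.hl⟩
  let _ : Module ℤ[X] C := Module.compHom C (aeval τ : ℤ[X] →ₐ[ℤ] Module.End ℤ C).toRingHom
  have hsm : ∀ (f : ℤ[X]) (y : C), f • y = aeval τ f y := fun _ _ => rfl
  let J : Ideal ℤ[X] :=
    Ideal.comap (aeval g : ℤ[X] →ₐ[ℤ] 𝓞 K).toRingHom (Ideal.span {ϖ})
  have hJ : ∀ f : ℤ[X], f ∈ J ↔ ϖ ∣ aeval g f := by
    intro f
    rw [Ideal.mem_comap, Ideal.mem_span_singleton]
    rfl
  have : Module.Finite ℤ[X] C := Module.Finite.of_finite
  have hne : J • (⊤ : Submodule ℤ[X] C) ≠ ⊤ := by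
    refine naka J hx0 (fun a ha => ?_)
    rw [hsm]
    exact hx a ((hJ a).1 ha)
  let Q := C ⧸ (J • (⊤ : Submodule ℤ[X] C))
  have : Nontrivial Q := Submodule.Quotient.nontrivial_iff.2 hne
  have hl : ∀ v : Q, ℓ • v = 0 := by
    intro v
    obtain ⟨y, rfl⟩ := Submodule.Quotient.mk_surjective _ v
    rw [← Submodule.Quotient.mk_smul, Submodule.Quotient.mk_eq_zero]
    have h1 : ((ℓ : ℤ[X])) • y = ℓ • y := by
      rw [Nat.cast_smul_eq_nsmul]
    rw [← h1]
    refine Submodule.smul_mem_smul ((hJ _).2 ?_) Submodule.mem_top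
    rw [map_natCast]
    exact h.dvd
  obtain ⟨v, hv⟩ := exists_ne (0 : Q)
  obtain ⟨ψ, hψ⟩ := clb_form hl hv
  let π : C →+ Q := (Submodule.mkQ (J • (⊤ : Submodule ℤ[X] C))).toAddMonoidHom
  refine ⟨ψ.comp π, ?_, ?_⟩
  · intro h0
    apply hψ
    obtain ⟨y, hy⟩ := Submodule.Quotient.mk_surjective _ v
    have h3 := DFunLike.congr_fun h0 y
    rw [← hy]
    exact h3
  · intro f y hf
    have h3 : π (aeval τ f y) = 0 := by
      show Submodule.Quotient.mk _ = 0
      rw [Submodule.Quotient.mk_eq_zero, ← hsm]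
      exact Submodule.smul_mem_smul ((hJ f).2 hf) Submodule.mem_top
    show ψ (π (aeval τ f y)) = 0
    rw [h3, map_zero]

end

end Pool.Agent.Lib.MP_1a91b9_nuT.DB
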