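import Pool.Agent.Lib.MP_1a91b9_nuT.DB.Thaine
import Pool.Agent.Lib.MP_1a91b9_nuT.CF.HilbS
import Pool.Agent.Lib.MP_1a91b9_nuT.CF.CycExt
import Pool.Agent.Lib.MP_1a91b9_nuT.CF.Frob
import Pool.Agent.Lib.MP_1a91b9_nuT.CF.NormRC
import Pool.Agent.Lib.MP_1a91b9_nuT.CF.FirstIneq
import Pool.Agent.Lib.MP_1a91b9_nuT.CF.ExtSum

/-!
# DB: a place of degree one with two conditions

PROOF (complete; stream DB of helper55). Jobs DnA (`exists_kummer`, `not_pow_up`), DnB
(`dvd_nrm`, `spl_of_pow`), DnC (`rc_of_princ`, `exists_place`).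

`exists_kummer`: `X^ℓ - ξ` is irreducible over `M` (`X_pow_sub_C_irreducible_of_prime`), let `T` be a
splitting field (`Polynomial.SplittingField`, universe `u`; or `AdjoinRoot`), `η` a root; the roots are
`ζ^i η`, so `T = M(η)`, of degree `ℓ`, Galois; `T` is a number field.
`not_pow_up`: `M/N` with `[M:N]` prime to `ℓ`: `ξ = z^ℓ` in `M` gives `ξ^[M:N] = (norm z)^ℓ` in `N`, and
with `a [M:N] + b ℓ = 1` `ξ` is an `ℓ`-th power in `N`.
`dvd_nrm`: the powers of `ζ` are distinct modulo `w` (`1 - ζ^i` divides `ℓ`, `w ℓ = 1`), so the class of `ζ`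
in the unit group of the residue field (of order `nrm w - 1`) has order `ℓ`.
`spl_of_pow`: `p = nrm w` is prime; `U` a place of `T` above `w`, `φ` a Frobenius element (`CF.exists_fr`,
`CF.IsFr`: `φ y - y^p ∈ U` for the integers `y` of `T`). `ℓ ∣ p - 1` (`dvd_nrm`). `φ η = ζ^j η`. For `y : T` integral
at `U`: `U (φ y - y^p) < 1` (`exists_val_lt_of_int`; `U(φ z) < 1` if `U z < 1`: for an integer `z` clear,
in general write `z = z1/z2` with `z2 ∉ U`). `η^p = η (η^ℓ)^((p-1)/ℓ) = η ξ^((p-1)/ℓ) = η x^(p-1) = η`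
modulo `U` (`w (ξ - x^ℓ) < 1`, `w x = 1`, the residue field of `w` has `p` elements, so
`w (x^(p-1) - 1) < 1`). So `U (ζ^j - 1) < 1` (`U η = 1`), hence `ζ^j = 1`, `φ η = η`, `φ = 1`. So `y - y^p ∈ U`
for all integers `y`: the residue field of `U` has at most `p` elements: `f = 1`. With `¬ Ram`: `Spl`
(`inertiaDegIn` is the inertia degree of any place above in the Galois case).

`rc_of_princ`: `CF.evI_span`, `od_eq_ord`: `CF.RC 1`: `zero` : `1 ≤ v` is impossible (`Ideal.one_eq_top`).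
`exists_place`: `M/N`, `ζ` from `CF.exists_cyc N N ℓ`; `[M:N] ∣ ℓ - 1`: `Gal(M/N)` embeds into the units of
`ZMod ℓ` by the action on `ζ`. `ζ ∈ M`. `x w = f_w h (w.under)` on the places of `M` is `RC` modulo
`(1)` (`CF.rc_norm`, `Ideal.map` of `1`); it is not identically zero: if `h v ≠ 0` take `w` above `v`,
`f_w ∣ [M:N]` is prime to `ℓ`. `dens_one` needs a modulus `m ≠ 1`: let `m` be a place `w0` of `M` and change
`x` to `0` at `w0`, keeping `x ≠ 0` (choose `w0` different from a place with `x w ≠ 0`):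
`RC m x` (`princ` from the original one: for `z - 1 ∈ w0` the place `w0` does not divide `z`; use
`CF.evI_span`). `T/M` from `exists_kummer` (`not_pow_up`). For `1 < s ≤ 2` (`PZ` of sets of places of `M`):
`PZ{x = 0, ≠ w0} ≤ (1/ℓ) (log (1/(s-1)) + B1)` (`dens_one`), `PZ{Spl T} ≤ (1/ℓ) PZ(univ of T) ≤ (1/ℓ)
(log (1/(s-1)) + B2)` (`PZ_up`, `prime_sum`), `PZ(univ) ≥ log (1/(s-1)) - B3` (`prime_sum`), the places
of degree `> 1` over `ℚ` contribute a bounded amount (`PZ_high_deg ℚ M`; `w` of degree one over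
`ℚ`: `nrm w` is prime), finite sets too (`PZ_finite`): the places above `S`, above `ℓ`, above `3`, `w0`,
ramified in `T` (`ram_finite`). Since `2/ℓ < 1` and `log (1/(s-1)) → ∞` there is a place `w` in none of
these sets (`PZ_union`, `PZ_mono`; by contradiction). `lam = w.under (𝓞 N)`: `nrm w = nrm lam ^ f` is prime, so
`nrm lam` is prime and `f = 1`; `h lam = x w ≠ 0`; `ℓ ∣ nrm lam - 1` (above); if `lam (ξ - z^ℓ) < 1` then
`spl_of_pow` gives `Spl T w`, contradiction.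
-/

set_option autoImplicit false

namespace Pool.Agent.Lib.MP_1a91b9_nuT.DB

variable [CD]

open NumberField IsDedekindDomain Pool.Agent.Lib.MP_1a91b9_nt

universe u

noncomputable section

/-- the Kummer extension generated by an `ℓ`-th root of `ξ` -/
theorem exists_kummer (M : Type u) [Field M] [NumberField M] {ℓ : ℕ} (hℓ : ℓ.Prime) {ζ : M}
    (hζ : IsPrimitiveRoot ζ ℓ) {ξ : M} (hξ : ¬ ∃ z : M, ξ = z ^ ℓ) :
    ∃ (T : Type u) (_ : Field T) (_ : NumberField T) (_ : Algebra M T) (η : T), IsGalois M T ∧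
      Module.finrank M T = ℓ ∧ η ^ ℓ = algebraMap M T ξ ∧ ∀ φ : Gal(T/M), φ η = η → φ = 1 := by
  classical
  have hne : NeZero ℓ := ⟨hℓ.ne_zero⟩
  have hprim : (primitiveRoots ℓ M).Nonempty := ⟨ζ, (mem_primitiveRoots hℓ.pos).2 hζ⟩
  have hirr : Irreducible (Polynomial.X ^ ℓ - Polynomial.C ξ : Polynomial M) :=
    X_pow_sub_C_irreducible_of_prime hℓ fun b hb => hξ ⟨b, hb.symm⟩
  let T : Type u := (Polynomial.X ^ ℓ - Polynomial.C ξ : Polynomial M).SplittingField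
  have hfin : FiniteDimensional M T :=
    Polynomial.IsSplittingField.finiteDimensional T (Polynomial.X ^ ℓ - Polynomial.C ξ)
  have hnf : NumberField T := NumberField.of_module_finite M T
  have hη : (rootOfSplitsXPowSubC (NeZero.pos ℓ) ξ T) ^ ℓ = algebraMap M T ξ :=
    rootOfSplitsXPowSubC_pow ξ T
  refine ⟨T, inferInstance, hnf, inferInstance, rootOfSplitsXPowSubC (NeZero.pos ℓ) ξ T,
    isGalois_of_isSplittingField_X_pow_sub_C hprim hirr T,
    finrank_of_isSplittingField_X_pow_sub_C hprim hirr T, hη, ?_⟩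
  intro φ hφ
  have htop := Algebra.adjoin_root_eq_top_of_isSplittingField hprim hirr hη
  have h1 : (φ : T →ₐ[M] T) = AlgHom.id M T := by
    refine AlgHom.ext_of_adjoin_eq_top htop ?_
    intro x hx
    rw [Set.mem_singleton_iff] at hx
    rw [hx]
    exact hφ
  ext x
  exact DFunLike.congr_fun h1 x

theorem not_pow_up {N M : Type u} [Field N] [NumberField N] [Field M] [NumberField M]
    [Algebra N M] {ℓ : ℕ} (hc : (Module.finrank N M).Coprime ℓ) {ξ : N} (hξ0 : ξ ≠ 0)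
    (hξ : ¬ ∃ z : N, ξ = z ^ ℓ) : ¬ ∃ z : M, algebraMap N M ξ = z ^ ℓ := by
  rintro ⟨z, hz⟩
  have h1 : ξ ^ Module.finrank N M = (Algebra.norm N z) ^ ℓ := by
    rw [← Algebra.norm_algebraMap (S := M) ξ, hz, map_pow]
  set d := Module.finrank N M with hd
  set y := Algebra.norm N z with hy
  have hbez : (1 : ℤ) = d * Nat.gcdA d ℓ + ℓ * Nat.gcdB d ℓ := by
    rw [← Nat.gcd_eq_gcd_ab, hc]
    rfl
  apply hξ
  refine ⟨y ^ (Nat.gcdA d ℓ) * ξ ^ (Nat.gcdB d ℓ), ?_⟩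
  calc ξ = ξ ^ (1 : ℤ) := (zpow_one ξ).symm
    _ = ξ ^ ((d : ℤ) * Nat.gcdA d ℓ + ℓ * Nat.gcdB d ℓ) := by rw [← hbez]
    _ = (ξ ^ d) ^ (Nat.gcdA d ℓ) * ξ ^ ((ℓ : ℤ) * Nat.gcdB d ℓ) := by
        rw [zpow_add₀ hξ0, zpow_mul, zpow_natCast]
    _ = (y ^ ℓ) ^ (Nat.gcdA d ℓ) * ξ ^ ((Nat.gcdB d ℓ) * (ℓ : ℤ)) := by
        rw [h1, mul_comm (ℓ : ℤ)]
    _ = (y ^ (Nat.gcdA d ℓ)) ^ ℓ * (ξ ^ (Nat.gcdB d ℓ)) ^ ℓ := by
        rw [zpow_mul ξ, zpow_natCast]
        congr 1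
        rw [← zpow_natCast y ℓ, ← zpow_mul, mul_comm, zpow_mul, zpow_natCast]
    _ = (y ^ (Nat.gcdA d ℓ) * ξ ^ (Nat.gcdB d ℓ)) ^ ℓ := by rw [mul_pow]

/-- roots of unity of order prime to the place are distinct modulo the place -/
private theorem dnb_root {F : Type u} [Field F] [NumberField F] (w : HeightOneSpectrum (𝓞 F))
    {ℓ : ℕ} (hwℓ : w.valuation F (ℓ : F) = 1) {z : F} (hz : z ^ ℓ = 1)
    (h : w.valuation F (z - 1) < 1) : z = 1 := by
  by_contra hne
  have hsum : ∑ i ∈ Finset.range ℓ, z ^ i = 0 := by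
    have h1 := geom_sum_mul z ℓ
    rw [hz, sub_self] at h1
    exact (mul_eq_zero.1 h1).resolve_right (sub_ne_zero.2 hne)
  have hz1 : w.valuation F z ≤ 1 := by
    have h1 : z = (z - 1) + 1 := by ring
    rw [h1]
    refine (Valuation.map_add _ _ _).trans (max_le h.le ?_)
    rw [map_one]
  have h2 : (ℓ : F) = -∑ i ∈ Finset.range ℓ, (z ^ i - 1) := by
    rw [Finset.sum_sub_distrib, hsum]
    simp
  have h3 : w.valuation F (ℓ : F) < 1 := by
    rw [h2, Valuation.map_neg]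
    refine Valuation.map_sum_lt _ one_ne_zero fun i _ => ?_
    have h4 := mul_geom_sum z i
    rw [← h4, map_mul]
    refine lt_of_le_of_lt (mul_le_of_le_one_right' ?_) h
    refine Valuation.map_sum_le _ fun j _ => ?_
    rw [map_pow]
    exact pow_le_one' hz1 j
  rw [hwℓ] at h3
  exact lt_irrefl _ h3

private theorem dnb_pow {F : Type u} [Field F] [NumberField F] (w : HeightOneSpectrum (𝓞 F))
    {a b : F} (ha : w.valuation F a ≤ 1) (hb : w.valuation F b ≤ 1)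
    (h : w.valuation F (a - b) < 1) (n : ℕ) : w.valuation F (a ^ n - b ^ n) < 1 := by
  rw [← (Commute.all a b).geom_sum₂_mul n, map_mul]
  refine lt_of_le_of_lt (mul_le_of_le_one_left' ?_) h
  refine Valuation.map_sum_le _ fun i _ => ?_
  rw [map_mul, map_pow, map_pow]
  exact mul_le_one' (pow_le_one' ha _) (pow_le_one' hb _)

private theorem dnb_notMem {F : Type u} [Field F] [NumberField F] (w : HeightOneSpectrum (𝓞 F))
    (a : 𝓞 F) : w.valuation F (a : F) < 1 ↔ a ∈ w.asIdeal :=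
  w.valuation_lt_one_iff_mem a

/-- `ℓ` divides `nrm w - 1` if there are `ℓ`-th roots of unity -/
theorem dvd_nrm {M : Type u} [Field M] [NumberField M] {ℓ : ℕ} (hℓ : ℓ.Prime) {ζ : M}
    (hζ : IsPrimitiveRoot ζ ℓ) (w : HeightOneSpectrum (𝓞 M))
    (hwℓ : w.valuation M (ℓ : M) = 1) : ℓ ∣ nrm w - 1 := by
  have hfact : Fact ℓ.Prime := ⟨hℓ⟩
  have hmax := w.isMaximal
  let _ : Field (𝓞 M ⧸ w.asIdeal) := Ideal.Quotient.field _
  have hfin : Finite (𝓞 M ⧸ w.asIdeal) := Ideal.finiteQuotientOfFreeOfNeBot _ w.ne_bot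
  have hint : IsIntegral ℤ ζ := ⟨Polynomial.X ^ ℓ - 1, Polynomial.monic_X_pow_sub_C 1 hℓ.ne_zero, by
    simp [hζ.pow_eq_one]⟩
  let z : 𝓞 M := ⟨ζ, hint⟩
  have hz : z ^ ℓ = 1 := Subtype.ext hζ.pow_eq_one
  have hz1 : Ideal.Quotient.mk w.asIdeal z ≠ 1 := by
    intro h
    have h1 : z - 1 ∈ w.asIdeal := by
      rw [← Ideal.Quotient.eq_zero_iff_mem, map_sub, map_one, h, sub_self]
    have h2 : w.valuation M (ζ - 1) < 1 := (dnb_notMem w (z - 1)).2 h1
    exact hζ.ne_one hℓ.one_lt (dnb_root w hwℓ hζ.pow_eq_one h2)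
  have hne : Ideal.Quotient.mk w.asIdeal z ≠ 0 := by
    intro h
    have h1 := congrArg (Ideal.Quotient.mk w.asIdeal) hz
    rw [map_pow, h, zero_pow hℓ.ne_zero, map_one] at h1
    exact zero_ne_one h1
  let u : (𝓞 M ⧸ w.asIdeal)ˣ := Units.mk0 _ hne
  have hu : orderOf u = ℓ := by
    refine orderOf_eq_prime ?_ ?_
    · apply Units.ext
      rw [Units.val_pow_eq_pow_val, Units.val_mk0, ← map_pow, hz, map_one, Units.val_one]
    · intro h
      exact hz1 (congrArg Units.val h)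
  have hcard : Nat.card (𝓞 M ⧸ w.asIdeal)ˣ = nrm w - 1 := by
    rw [Nat.card_units, nrm_eq]
    rfl
  rw [← hcard, ← hu]
  exact orderOf_dvd_natCard u

theorem spl_of_pow {M T : Type u} [Field M] [NumberField M] [Field T] [NumberField T]
    [Algebra M T] [IsGalois M T] {ℓ : ℕ} (hℓ : ℓ.Prime) {ζ : M} (hζ : IsPrimitiveRoot ζ ℓ)
    {ξ : M} {η : T} (hη : η ^ ℓ = algebraMap M T ξ) (hgen : ∀ φ : Gal(T/M), φ η = η → φ = 1)
    (w : HeightOneSpectrum (𝓞 M)) (hw : (nrm w).Prime) (hwℓ : w.valuation M (ℓ : M) = 1)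
    (hwξ : w.valuation M ξ = 1) (hr : ¬ CF.Ram T w)
    (hx : ∃ x : M, w.valuation M (ξ - x ^ ℓ) < 1) : CF.Spl T w := by
  obtain ⟨U, hU⟩ := CF.exists_over (N := T) w
  obtain ⟨φ, hφ⟩ := CF.exists_fr (k := M) U
  rw [hU] at hφ
  obtain ⟨x, hx⟩ := hx
  set p := nrm w with hp
  have hp0 : 0 < p := hw.pos
  obtain ⟨m, hm⟩ := dvd_nrm hℓ hζ w hwℓ
  -- the place `U` is fixed by `φ`
  have hgU : gpl φ U = U := by
    have h1 : (gpl φ U).asIdeal ≤ U.asIdeal := by
      intro a ha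
      have h2 : φ⁻¹ • a ∈ U.asIdeal := ha
      have h3 := hφ (φ⁻¹ • a)
      rw [smul_inv_smul] at h3
      have h4 : (φ⁻¹ • a) ^ p ∈ U.asIdeal := Ideal.pow_mem_of_mem _ h2 _ hp0
      have h5 := U.asIdeal.add_mem h3 h4
      rwa [sub_add_cancel] at h5
    exact HeightOneSpectrum.ext (((gpl φ U).isMaximal).eq_of_le U.isMaximal.ne_top h1)
  have hval : ∀ a : T, U.valuation T (φ a) = U.valuation T a := by
    intro a
    have h1 := gpl_val φ U a
    rwa [hgU] at h1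
  -- transfer of congruences
  have hup : ∀ a : M, w.valuation M a < 1 → U.valuation T (algebraMap M T a) < 1 := by
    intro a ha
    rw [val_map_lt, hU]
    exact ha
  have hup1 : ∀ a : M, w.valuation M a = 1 → U.valuation T (algebraMap M T a) = 1 := by
    intro a ha
    rw [val_map_eq, hU]
    exact ha
  have hη1 : U.valuation T η = 1 := by
    have h1 := hup1 ξ hwξ
    rw [← hη, map_pow] at h1
    exact (pow_eq_one_iff_of_nonneg zero_le hℓ.ne_zero).1 h1
  have hη0 : η ≠ 0 := by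
    rintro rfl
    rw [map_zero] at hη1
    exact zero_ne_one hη1
  -- `x` is a unit at `w`
  have hx1 : w.valuation M x = 1 := by
    have h1 : w.valuation M (x ^ ℓ) = 1 := by
      have h2 : x ^ ℓ = ξ - (ξ - x ^ ℓ) := by ring
      rw [h2, Valuation.map_sub_eq_of_lt_left _ (by rw [hwξ]; exact hx), hwξ]
    rw [map_pow] at h1
    exact (pow_eq_one_iff_of_nonneg zero_le hℓ.ne_zero).1 h1
  -- `x ^ (p - 1)` is one modulo `w`
  have hxp : w.valuation M (x ^ (p - 1) - 1) < 1 := by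
    obtain ⟨a, ha⟩ := exists_val_lt_of_int w hx1.le 1
    have ha' : w.valuation M (x - (a : M)) < 1 := by
      refine lt_of_le_of_lt ha ?_
      rw [← WithZero.exp_zero, WithZero.exp_lt_exp]
      norm_num
    have hmax := w.isMaximal
    let _ : Field (𝓞 M ⧸ w.asIdeal) := Ideal.Quotient.field _
    have hfin : Finite (𝓞 M ⧸ w.asIdeal) := Ideal.finiteQuotientOfFreeOfNeBot _ w.ne_bot
    have ha1 : w.valuation M (a : M) = 1 := by
      have h2 : (a : M) = x - (x - (a : M)) := by ring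
      rw [h2, Valuation.map_sub_eq_of_lt_left _ (by rw [hx1]; exact ha'), hx1]
    have hane : Ideal.Quotient.mk w.asIdeal a ≠ 0 := by
      intro h
      rw [Ideal.Quotient.eq_zero_iff_mem, ← dnb_notMem, ha1] at h
      exact lt_irrefl _ h
    have hpow : (Ideal.Quotient.mk w.asIdeal a) ^ (p - 1) = 1 := by
      have h2 : Units.mk0 _ hane ^ (Nat.card (𝓞 M ⧸ w.asIdeal)ˣ) = 1 := pow_card_eq_one'
      have h3 : Nat.card (𝓞 M ⧸ w.asIdeal)ˣ = p - 1 := by
        rw [Nat.card_units, hp, nrm_eq]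
        rfl
      rw [h3] at h2
      have h4 := congrArg Units.val h2
      rwa [Units.val_pow_eq_pow_val, Units.val_mk0, Units.val_one] at h4
    have h5 : w.valuation M ((a : M) ^ (p - 1) - 1) < 1 := by
      have h6 : a ^ (p - 1) - 1 ∈ w.asIdeal := by
        rw [← Ideal.Quotient.eq_zero_iff_mem, map_sub, map_pow, hpow, map_one, sub_self]
      exact (dnb_notMem w (a ^ (p - 1) - 1)).2 h6
    have h7 : w.valuation M (x ^ (p - 1) - (a : M) ^ (p - 1)) < 1 :=
      dnb_pow w hx1.le ha1.le ha' _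
    have h8 : x ^ (p - 1) - 1 = (x ^ (p - 1) - (a : M) ^ (p - 1)) + ((a : M) ^ (p - 1) - 1) := by
      ring
    rw [h8]
    exact lt_of_le_of_lt (Valuation.map_add _ _ _) (max_lt h7 h5)
  -- `ξ ^ m` is one modulo `w`
  have hξm : w.valuation M (ξ ^ m - 1) < 1 := by
    have h1 : w.valuation M (ξ ^ m - (x ^ ℓ) ^ m) < 1 :=
      dnb_pow w hwξ.le (by rw [map_pow, hx1, one_pow]) hx _
    rw [← pow_mul, ← hm] at h1
    have h8 : ξ ^ m - 1 = (ξ ^ m - x ^ (p - 1)) + (x ^ (p - 1) - 1) := by ring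
    rw [h8]
    exact lt_of_le_of_lt (Valuation.map_add _ _ _) (max_lt h1 hxp)
  have hηp : U.valuation T (η ^ p - η) < 1 := by
    have h1 := hup _ hξm
    rw [map_sub, map_pow, map_one, ← hη, ← pow_mul, ← hm] at h1
    have h2 : η ^ p - η = (η ^ (p - 1) - 1) * η := by
      have h3 : η ^ p = η ^ (p - 1) * η := by
        rw [← pow_succ, Nat.sub_add_cancel hp0]
      rw [h3]
      ring
    rw [h2, map_mul, hη1, mul_one]
    exact h1
  -- `φ η` is `η ^ p` modulo `U`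
  have hφη : U.valuation T (φ η - η ^ p) < 1 := by
    obtain ⟨y, hy⟩ := exists_val_lt_of_int U hη1.le 1
    have hy' : U.valuation T (η - (y : T)) < 1 := by
      refine lt_of_le_of_lt hy ?_
      rw [← WithZero.exp_zero, WithZero.exp_lt_exp]
      norm_num
    have h1 : U.valuation T (φ η - φ (y : T)) < 1 := by
      rw [← map_sub, hval]
      exact hy'
    have h2 : U.valuation T (φ (y : T) - (y : T) ^ p) < 1 := (dnb_notMem U _).2 (hφ y)
    have h3 : U.valuation T ((y : T) ^ p - η ^ p) < 1 := by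
      have h4 : U.valuation T (y : T) ≤ 1 := U.valuation_le_one y
      refine dnb_pow U h4 hη1.le ?_ _
      rw [← neg_sub, Valuation.map_neg]
      exact hy'
    have h4 : φ η - η ^ p = (φ η - φ (y : T)) + ((φ (y : T) - (y : T) ^ p) +
        ((y : T) ^ p - η ^ p)) := by ring
    rw [h4]
    exact lt_of_le_of_lt (Valuation.map_add _ _ _) (max_lt h1
      (lt_of_le_of_lt (Valuation.map_add _ _ _) (max_lt h2 h3)))
  have hφ1 : φ = 1 := by
    apply hgen
    have h1 : (φ η / η) ^ ℓ = 1 := by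
      rw [div_pow, ← map_pow, hη, AlgEquiv.commutes, div_self]
      rw [← hη]
      exact pow_ne_zero _ hη0
    have h2 : U.valuation T (φ η / η - 1) < 1 := by
      have h3 : φ η / η - 1 = (φ η - η) / η := by
        rw [sub_div, div_self hη0]
      rw [h3, map_div₀, hη1, div_one]
      have h4 : φ η - η = (φ η - η ^ p) + (η ^ p - η) := by ring
      rw [h4]
      exact lt_of_le_of_lt (Valuation.map_add _ _ _) (max_lt hφη hηp)
    have h5 : U.valuation T (ℓ : T) = 1 := by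
      have h6 := hup1 (ℓ : M) hwℓ
      rwa [map_natCast] at h6
    have h7 := dnb_root U h5 h1 h2
    rwa [div_eq_one_iff_eq hη0] at h7
  -- the residue degree is one
  have hf : U.asIdeal.inertiaDeg (𝓞 M) = 1 := by
    have h1 := CF.fr_fix (k := M) (L := T) (N := T) U φ p 1 w hU (by rw [pow_one]) one_pos hφ
      (by intro a; rw [hφ1]; rfl)
    have h2 : ∀ V : HeightOneSpectrum (𝓞 T), V.asIdeal = U.asIdeal →
        V.asIdeal.inertiaDeg (𝓞 M) ∣ 1 → U.asIdeal.inertiaDeg (𝓞 M) ∣ 1 := by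
      intro V hV h3
      rw [← hV]
      exact h3
    refine Nat.dvd_one.1 (h2 _ ?_ h1)
    ext a
    exact Iff.rfl
  refine ⟨not_not.1 hr, ?_⟩
  have hover : U.asIdeal.LiesOver w.asIdeal := ⟨(congrArg HeightOneSpectrum.asIdeal hU).symm⟩
  have hprime := U.isPrime
  have hprime' := w.isPrime
  rw [Ideal.inertiaDegIn_eq_inertiaDeg w.asIdeal U.asIdeal Gal(T/M), hf]

theorem rc_of_princ {N : Type u} [Field N] [NumberField N] {ℓ : ℕ}
    {h : HeightOneSpectrum (𝓞 N) → ZMod ℓ} (hh : PrincZero h) : CF.RC 1 h := by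
  refine ⟨fun v hv => ?_, fun z hz _ => ?_⟩
  · rw [Ideal.one_eq_top, top_le_iff] at hv
    exact absurd hv v.isPrime.ne_top
  · have hz' : ((z : 𝓞 N) : N) ≠ 0 := by
      intro h0
      exact hz (RingOfIntegers.coe_eq_zero_iff.mp h0)
    rw [CF.evI_span h z (Units.mk0 ((z : 𝓞 N) : N) hz') rfl, ← hh _ hz']
    refine finsum_congr fun v => ?_
    rw [← od_eq_ord]
    rfl

/-- a cyclotomic extension (with an auxiliary surjection, to separate two instances) -/
private theorem dnc_exists_M (k L : Type u) [Field k] [NumberField k] [Field L] [NumberField L]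
    [Algebra k L] [IsGalois k L] (hs : Function.Surjective (algebraMap k L)) (q : ℕ)
    (hq : q.Prime) :
    ∃ (M : Type u) (_ : Field M) (_ : NumberField M) (_ : Algebra k M) (ζ : M), IsGalois k M ∧
      IsPrimitiveRoot ζ q ∧ ∀ φ : Gal(M/k), φ ζ = ζ → φ = 1 := by
  obtain ⟨M, _, _, _, _, _, ζ, h1, h2, h3⟩ := CF.exists_cyc k L q hq
  refine ⟨M, inferInstance, inferInstance, inferInstance, ζ, h1, h2, fun φ hφ => h3 φ ?_ hφ⟩
  intro x
  obtain ⟨y, rfl⟩ := hs x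
  rw [← IsScalarTower.algebraMap_apply, AlgEquiv.commutes]

private theorem dnc_exists_M' (N : Type u) [Field N] [NumberField N] (q : ℕ) (hq : q.Prime) :
    ∃ (M : Type u) (_ : Field M) (_ : NumberField M) (_ : Algebra N M) (ζ : M), IsGalois N M ∧
      IsPrimitiveRoot ζ q ∧ ∀ φ : Gal(M/N), φ ζ = ζ → φ = 1 :=
  dnc_exists_M N N (fun x => ⟨x, rfl⟩) q hq

private theorem dnc_card {N M : Type u} [Field N] [NumberField N] [Field M] [NumberField M]
    [Algebra N M] [IsGalois N M] {ℓ : ℕ} (hℓ : ℓ.Prime) {ζ : M} (hζ : IsPrimitiveRoot ζ ℓ)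
    (hg : ∀ φ : Gal(M/N), φ ζ = ζ → φ = 1) : Module.finrank N M ∣ ℓ - 1 := by
  have : Fact ℓ.Prime := ⟨hℓ⟩
  have h1 : Nat.card Gal(M/N) ∣ Nat.card (ZMod ℓ)ˣ := by
    refine Subgroup.card_dvd_of_injective (hζ.autToPow N) ?_
    rw [injective_iff_map_eq_one]
    intro φ hφ
    refine hg φ ?_
    have h2 := hζ.autToPow_spec N φ
    rw [hφ, Units.val_one, ZMod.val_one, pow_one] at h2
    exact h2.symm
  rwa [IsGalois.card_aut_eq_finrank, Nat.card_eq_fintype_card, ZMod.card_units] at h1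

private theorem dnc_nrm {N M : Type u} [Field N] [NumberField N] [Field M] [NumberField M]
    [Algebra N M] (w : HeightOneSpectrum (𝓞 M)) :
    nrm w = nrm (w.under (𝓞 N)) ^ w.asIdeal.inertiaDeg (𝓞 N) := by
  have i2 : w.asIdeal.LiesOver (w.under (𝓞 N)).asIdeal := ⟨rfl⟩
  rw [nrm_eq, nrm_eq, Ideal.absNorm_pow_inertiaDeg (w.under (𝓞 N)).asIdeal w.asIdeal]

private theorem dnc_deg {N M : Type u} [Field N] [NumberField N] [Field M] [NumberField M]
    [Algebra N M] [IsGalois N M] (w : HeightOneSpectrum (𝓞 M)) :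
    w.asIdeal.inertiaDeg (𝓞 N) ∣ Module.finrank N M := by
  set v := w.under (𝓞 N) with hv
  have hvp : v.asIdeal.IsPrime := v.isPrime
  have hvm : v.asIdeal.IsMaximal := v.isMaximal
  have hfund := Ideal.ncard_primesOver_mul_ramificationIdxIn_mul_inertiaDegIn v.asIdeal (𝓞 M)
    Gal(M/N)
  rw [IsGalois.card_aut_eq_finrank] at hfund
  have i1 : w.asIdeal.IsPrime := w.isPrime
  have i2 : w.asIdeal.LiesOver v.asIdeal := ⟨rfl⟩
  rw [Ideal.inertiaDegIn_eq_inertiaDeg v.asIdeal w.asIdeal Gal(M/N)] at hfund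
  rw [← hfund]
  exact Dvd.intro_left _ (by rw [← mul_assoc])

/-- the places of a field of degree one over the rational numbers -/
private theorem dnc_nrm_prime {k : Type u} [Field k] [NumberField k]
    (hk : Module.finrank ℚ k = 1) (v : HeightOneSpectrum (𝓞 k)) : (nrm v).Prime := by
  have hvp : v.asIdeal.IsPrime := v.isPrime
  have hvm : v.asIdeal.IsMaximal := v.isMaximal
  letI : Field (𝓞 k ⧸ v.asIdeal) := Ideal.Quotient.field v.asIdeal
  have hfin : Finite (𝓞 k ⧸ v.asIdeal) := v.asIdeal.finiteQuotientOfFreeOfNeBot v.ne_bot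
  obtain ⟨p, hp⟩ := CharP.exists (𝓞 k ⧸ v.asIdeal)
  have hpp : p.Prime := (CharP.char_is_prime_or_zero (𝓞 k ⧸ v.asIdeal) p).resolve_right
    (CharP.char_ne_zero_of_finite (𝓞 k ⧸ v.asIdeal) p)
  have hpv : (p : 𝓞 k) ∈ v.asIdeal := by
    rw [← Ideal.Quotient.eq_zero_iff_mem, map_natCast]
    exact CharP.cast_eq_zero _ p
  have h1 : Ideal.absNorm v.asIdeal ∣ p := by
    have h2 : Ideal.absNorm (Ideal.span {(p : 𝓞 k)}) = p := by
      rw [Ideal.absNorm_span_singleton]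
      have h3 : Algebra.norm ℤ ((p : ℕ) : 𝓞 k) = (p : ℤ) ^ Module.finrank ℤ (𝓞 k) := by
        have := Algebra.norm_algebraMap (S := 𝓞 k) (p : ℤ)
        rwa [map_natCast] at this
      rw [h3, RingOfIntegers.rank, hk, pow_one, Int.natAbs_natCast]
    rw [← h2]
    exact Ideal.absNorm_dvd_absNorm_of_le ((Ideal.span_singleton_le_iff_mem _).mpr hpv)
  rw [nrm_eq]
  rcases (Nat.dvd_prime hpp).mp h1 with h | h
  · exact absurd (Ideal.absNorm_eq_one_iff.mp h) hvp.ne_top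
  · rwa [h]

private theorem dnc_nf : NumberField (ULift.{u} ℚ) where
  to_charZero := charZero_of_injective_ringHom
    (f := (ULift.ringEquiv.symm : ℚ ≃+* ULift.{u} ℚ).toRingHom) (ULift.ringEquiv.symm).injective
  to_finiteDimensional := by
    have h : Module.Finite ℚ (ULift.{u} ℚ) :=
      Module.Finite.equiv (ULift.ringEquiv.symm.toRatAlgEquiv (R := ℚ) (S := ULift.{u} ℚ)).toLinearEquiv
    exact h

private theorem dnc_high (M : Type u) [Field M] [NumberField M] :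
    ∃ B : ℝ, ∀ s : ℝ, 1 < s → CF.PZ {w : HeightOneSpectrum (𝓞 M) | ¬ (nrm w).Prime} s ≤ B := by
  letI := dnc_nf.{u}
  letI : Algebra (ULift.{u} ℚ) M :=
    ((algebraMap ℚ M).comp (ULift.ringEquiv : ULift.{u} ℚ ≃+* ℚ).toRingHom).toAlgebra
  obtain ⟨B, hB⟩ := CF.PZ_high_deg (ULift.{u} ℚ) M
  refine ⟨B, fun s hs => (CF.PZ_mono ?_ s hs).trans (hB s hs)⟩
  intro w hw
  rw [Set.mem_setOf_eq] at hw ⊢
  intro h1
  apply hw
  rw [dnc_nrm (N := ULift.{u} ℚ) w, h1, pow_one]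
  refine dnc_nrm_prime ?_ _
  have e : ULift.{u} ℚ ≃ₗ[ℚ] ℚ := (ULift.ringEquiv.toRatAlgEquiv (R := ULift.{u} ℚ) (S := ℚ)).toLinearEquiv
  rw [e.finrank_eq, Module.finrank_self]

/-- a set of places of upper density less than one is not everything -/
private theorem dnc_pz {M : Type u} [Field M] [NumberField M] (Z : Set (HeightOneSpectrum (𝓞 M)))
    {c B : ℝ} (hc : c < 1) (h : ∀ s : ℝ, 1 < s → s ≤ 2 →
      CF.PZ Z s ≤ c * Real.log (1 / (s - 1)) + B) : ∃ w, w ∉ Z := by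
  by_contra hcon
  push Not at hcon
  have hZ : Z = Set.univ := Set.eq_univ_of_forall hcon
  subst hZ
  obtain ⟨B', hB'⟩ := CF.prime_sum M
  set T : ℝ := max 0 ((B + B' + 1) / (1 - c)) with hT
  have hT0 : 0 ≤ T := le_max_left _ _
  have hT1 : (B + B' + 1) / (1 - c) ≤ T := le_max_right _ _
  have h1 := h (1 + Real.exp (-T)) (by have := Real.exp_pos (-T); linarith) (by
    have : Real.exp (-T) ≤ 1 := Real.exp_le_one_iff.mpr (by linarith)
    linarith)
  have h2 := hB' (1 + Real.exp (-T)) (by have := Real.exp_pos (-T); linarith) (by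
    have : Real.exp (-T) ≤ 1 := Real.exp_le_one_iff.mpr (by linarith)
    linarith)
  have h3 : Real.log (1 / (1 + Real.exp (-T) - 1)) = T := by
    rw [add_sub_cancel_left, one_div, ← Real.exp_neg, neg_neg, Real.log_exp]
  rw [h3] at h1 h2
  have h4 := (abs_le.mp h2).1
  have h5 : 0 < 1 - c := by linarith
  rw [div_le_iff₀ h5] at hT1
  nlinarith

/-- there is a place of degree one, outside a finite set, at which `h` does not vanish and `ξ` is
not an `ℓ`-th power -/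
theorem exists_place {N : Type u} [Field N] [NumberField N] {ℓ : ℕ} (hℓ : ℓ.Prime) (h3 : 3 ≤ ℓ)
    {h : HeightOneSpectrum (𝓞 N) → ZMod ℓ} (hh : PrincZero h) (hne : ∃ v, h v ≠ 0) {ξ : N}
    (hξ0 : ξ ≠ 0) (hξu : ∀ w : HeightOneSpectrum (𝓞 N), w.valuation N ξ = 1)
    (hξ : ¬ ∃ z : N, ξ = z ^ ℓ) {S : Set (HeightOneSpectrum (𝓞 N))} (hS : S.Finite) :
    ∃ lam : HeightOneSpectrum (𝓞 N), lam ∉ S ∧ (nrm lam).Prime ∧ ℓ ∣ nrm lam - 1 ∧ h lam ≠ 0 ∧
      ¬ ∃ z : N, lam.valuation N (ξ - z ^ ℓ) < 1 := by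
  have hfact : Fact ℓ.Prime := ⟨hℓ⟩
  obtain ⟨M, _, _, _, ζ, hgal, hζ, hgen⟩ := dnc_exists_M' N ℓ hℓ
  have hcard := dnc_card hℓ hζ hgen
  have hℓ1 : 0 < ℓ - 1 := by omega
  have hfle : Module.finrank N M ≤ ℓ - 1 := Nat.le_of_dvd hℓ1 hcard
  have hcop : (Module.finrank N M).Coprime ℓ := by
    rw [Nat.coprime_comm, hℓ.coprime_iff_not_dvd]
    intro hd
    have := Nat.le_of_dvd Module.finrank_pos hd
    omega
  -- the function on the places of `M`
  set x : HeightOneSpectrum (𝓞 M) → ZMod ℓ := fun w =>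
    (w.asIdeal.inertiaDeg (𝓞 N) : ZMod ℓ) * h (w.under (𝓞 N)) with hx
  have hrc : CF.RC 1 x := by
    have h1 := CF.rc_norm N M 1 h (rc_of_princ hh)
    rwa [Ideal.one_eq_top, Ideal.map_top, ← Ideal.one_eq_top] at h1
  have hf0 : ∀ w : HeightOneSpectrum (𝓞 M), (w.asIdeal.inertiaDeg (𝓞 N) : ZMod ℓ) ≠ 0 := by
    intro w h0
    rw [ZMod.natCast_eq_zero_iff] at h0
    have := Nat.le_of_dvd Module.finrank_pos (h0.trans (dnc_deg (N := N) w))
    omega
  obtain ⟨v1, hv1⟩ := hne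
  obtain ⟨w1, hw1⟩ := CF.exists_over (N := M) v1
  have hxw1 : x w1 ≠ 0 := by
    rw [hx]
    refine mul_ne_zero (hf0 w1) ?_
    rwa [hw1]
  obtain ⟨w0, hw0⟩ : ∃ w0, w0 ∉ ({w1} : Set (HeightOneSpectrum (𝓞 M))) := by
    obtain ⟨B, hB⟩ := CF.PZ_finite ({w1} : Set (HeightOneSpectrum (𝓞 M))) (Set.finite_singleton _)
    refine dnc_pz _ (c := 0) (B := B) zero_lt_one fun s hs _ => ?_
    rw [zero_mul, zero_add]
    exact hB s hs
  have hw01 : w1 ≠ w0 := fun e => hw0 (by rw [e]; rfl)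
  have hmax : ∀ v : HeightOneSpectrum (𝓞 M), w0.asIdeal ≤ v.asIdeal → v = w0 := by
    intro v hv
    exact HeightOneSpectrum.ext (w0.isMaximal.eq_of_le v.isPrime.ne_top hv).symm
  obtain ⟨x', hx'⟩ : ∃ x' : HeightOneSpectrum (𝓞 M) → ZMod ℓ, x' w0 = 0 ∧
      ∀ w, w ≠ w0 → x' w = x w := by
    classical
    exact ⟨fun w => if w = w0 then 0 else x w, if_pos rfl, fun w hw => if_neg hw⟩
  have hrc' : CF.RC w0.asIdeal x' := by
    refine hrc.le ?_ ?_ ?_
    · rw [Ideal.one_eq_top]; exact le_top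
    · intro v hv
      refine hx'.2 v ?_
      rintro rfl
      exact hv le_rfl
    · intro v hv
      rw [hmax v hv]
      exact hx'.1
  obtain ⟨B1, hB1⟩ := CF.dens_one ℓ w0.asIdeal w0.ne_bot
    (by rw [Ideal.one_eq_top]; exact w0.isPrime.ne_top) x' hrc' ⟨w1, by rwa [hx'.2 w1 hw01]⟩
  -- the Kummer extension
  obtain ⟨T, _, _, _, η, hTgal, hTdeg, hη, hTgen⟩ :=
    exists_kummer M hℓ hζ (not_pow_up (M := M) hcop hξ0 hξ)
  obtain ⟨B2, hB2⟩ := CF.prime_sum T
  obtain ⟨B3, hB3⟩ := dnc_high M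
  have hfin : ({w : HeightOneSpectrum (𝓞 M) | w.under (𝓞 N) ∈ S} ∪
      {w : HeightOneSpectrum (𝓞 M) | w.valuation M (ℓ : M) ≠ 1} ∪ {w0} ∪
      {w : HeightOneSpectrum (𝓞 M) | CF.Ram T w}).Finite := by
    refine ((Set.Finite.union ?_ ?_).union (Set.finite_singleton _)).union (CF.ram_finite M T)
    · refine Set.Finite.preimage' (f := fun w : HeightOneSpectrum (𝓞 M) => w.under (𝓞 N)) hS ?_
      intro v _
      have h1 : Finite (S4.Over M v) := inferInstance
      refine Set.Finite.subset (Set.finite_range (fun w : S4.Over M v => w.1)) ?_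
      intro w hw
      exact ⟨⟨w, congrArg HeightOneSpectrum.asIdeal hw⟩, rfl⟩
    · have hℓ0 : ((ℓ : ℕ) : M) ≠ 0 := Nat.cast_ne_zero.mpr hℓ.ne_zero
      refine (od_finite hℓ0).subset fun w hw => ?_
      rw [Set.mem_setOf_eq] at hw ⊢
      rwa [Ne, ← val_eq_one_iff w hℓ0]
  obtain ⟨B4, hB4⟩ := CF.PZ_finite _ hfin
  have hℓR : (3 : ℝ) ≤ ℓ := by exact_mod_cast h3
  have hℓR0 : (0 : ℝ) < ℓ := by linarith
  obtain ⟨w, hw⟩ := dnc_pz ({w : HeightOneSpectrum (𝓞 M) | ¬ w0.asIdeal ≤ w.asIdeal ∧ x' w = 0} ∪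
      {w : HeightOneSpectrum (𝓞 M) | CF.Spl T w} ∪
      {w : HeightOneSpectrum (𝓞 M) | ¬ (nrm w).Prime} ∪
      ({w : HeightOneSpectrum (𝓞 M) | w.under (𝓞 N) ∈ S} ∪
      {w : HeightOneSpectrum (𝓞 M) | w.valuation M (ℓ : M) ≠ 1} ∪ {w0} ∪
      {w : HeightOneSpectrum (𝓞 M) | CF.Ram T w})) (c := 2 / ℓ)
      (B := B1 / ℓ + B2 / ℓ + B3 + B4) (by rw [div_lt_one hℓR0]; linarith) (by
    intro s hs hs2
    have e1 : CF.PZ {w : HeightOneSpectrum (𝓞 M) | ¬ w0.asIdeal ≤ w.asIdeal ∧ x' w = 0} s ≤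
        (Real.log (1 / (s - 1)) + B1) / ℓ := by
      rw [le_div_iff₀ hℓR0, mul_comm]
      exact hB1 s hs hs2
    have e2 : CF.PZ {w : HeightOneSpectrum (𝓞 M) | CF.Spl T w} s ≤
        (Real.log (1 / (s - 1)) + B2) / ℓ := by
      rw [le_div_iff₀ hℓR0, mul_comm]
      have h1 := CF.PZ_up M T {w : HeightOneSpectrum (𝓞 M) | CF.Spl T w} (fun v hv => hv) s hs
      rw [hTdeg] at h1
      have h2 := (abs_le.mp (hB2 s hs hs2)).2
      linarith
    have e3 := hB3 s hs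
    have e4 := hB4 s hs
    refine (CF.PZ_union _ _ s hs).trans ?_
    have e5 := CF.PZ_union ({w : HeightOneSpectrum (𝓞 M) | ¬ w0.asIdeal ≤ w.asIdeal ∧ x' w = 0} ∪
      {w : HeightOneSpectrum (𝓞 M) | CF.Spl T w})
      {w : HeightOneSpectrum (𝓞 M) | ¬ (nrm w).Prime} s hs
    have e6 := CF.PZ_union {w : HeightOneSpectrum (𝓞 M) | ¬ w0.asIdeal ≤ w.asIdeal ∧ x' w = 0}
      {w : HeightOneSpectrum (𝓞 M) | CF.Spl T w} s hs
    have e7 : 2 / (ℓ : ℝ) * Real.log (1 / (s - 1)) + (B1 / ℓ + B2 / ℓ + B3 + B4) =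
        (Real.log (1 / (s - 1)) + B1) / ℓ + (Real.log (1 / (s - 1)) + B2) / ℓ + B3 + B4 := by
      ring
    rw [e7]
    linarith)
  simp only [Set.mem_union, Set.mem_setOf_eq, Set.mem_singleton_iff, not_or, not_and,
    not_not, ne_eq] at hw
  obtain ⟨⟨⟨ha, hb⟩, hc⟩, ⟨⟨hd, he⟩, hf⟩, hg⟩ := hw
  have hnw := dnc_nrm (N := N) w
  have hfw : w.asIdeal.inertiaDeg (𝓞 N) = 1 := by
    refine Nat.Prime.eq_one_of_pow (x := nrm (w.under (𝓞 N))) ?_
    rwa [← hnw]
  have hnw' : nrm w = nrm (w.under (𝓞 N)) := by rw [hnw, hfw, pow_one]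
  refine ⟨w.under (𝓞 N), hd, ?_, ?_, ?_, ?_⟩
  · rwa [← hnw']
  · rw [← hnw']
    exact dvd_nrm hℓ hζ w he
  · intro h0
    refine ha (fun hle => hf (hmax w hle)) ?_
    rw [hx'.2 w hf, hx]
    simp only [h0, mul_zero]
  · rintro ⟨z, hz⟩
    refine hb (spl_of_pow hℓ hζ hη hTgen w hc he ?_ hg ⟨algebraMap N M z, ?_⟩)
    · rw [val_map_eq]
      exact hξu _
    · rw [← map_pow, ← map_sub, val_map_lt]
      exact hz

end

end Pool.Agent.Lib.MP_1a91b9_nuT.DB
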