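import Mathlib

/-!
# DB: primitive roots
-/

set_option autoImplicit false

namespace Pool.Agent.Lib.MP_1a91b9_nuT.DB

theorem exists_prim {p : ℕ} (hp : p.Prime) : ∃ b : ℤ,
    (∀ x : ℤ, ¬ (p : ℤ) ∣ x → ∃ i : ℕ, (p : ℤ) ∣ x - b ^ i) ∧ ¬ (p : ℤ) ∣ b ∧
    ∀ i : ℕ, (p : ℤ) ∣ b ^ i - 1 → p - 1 ∣ i := by
  have : Fact p.Prime := ⟨hp⟩
  obtain ⟨g, hg⟩ := IsCyclic.exists_generator (α := (ZMod p)ˣ)
  have hb : (((((g : ZMod p)).val : ℕ) : ℤ) : ZMod p) = (g : ZMod p) := by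
    rw [Int.cast_natCast, ZMod.natCast_zmod_val]
  refine ⟨(((g : ZMod p)).val : ℕ), ?_, ?_, ?_⟩
  · intro x hx
    have hx0 : (x : ZMod p) ≠ 0 := by
      intro h
      exact hx ((ZMod.intCast_zmod_eq_zero_iff_dvd x p).1 h)
    obtain ⟨i, hi⟩ := (mem_powers_iff_mem_zpowers).2 (hg (Units.mk0 (x : ZMod p) hx0))
    refine ⟨i, ?_⟩
    rw [← ZMod.intCast_zmod_eq_zero_iff_dvd]
    have h1 := congrArg (Units.val) hi
    simp only [Units.val_pow_eq_pow_val, Units.val_mk0] at h1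
    rw [Int.cast_sub, Int.cast_pow, hb, h1, sub_self]
  · intro h
    rw [← ZMod.intCast_zmod_eq_zero_iff_dvd, hb] at h
    exact g.ne_zero h
  · intro i h
    rw [← ZMod.intCast_zmod_eq_zero_iff_dvd, Int.cast_sub, Int.cast_pow, hb, Int.cast_one,
      sub_eq_zero] at h
    have h1 : g ^ i = 1 := Units.ext (by rw [Units.val_pow_eq_pow_val, h, Units.val_one])
    have h2 := orderOf_dvd_of_pow_eq_one h1
    rwa [orderOf_eq_card_of_forall_mem_zpowers hg, Nat.card_eq_fintype_card, ZMod.card_units] at h2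

end Pool.Agent.Lib.MP_1a91b9_nuT.DB
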