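import Pool.Agent.Lib.MP_1a91b9_nuT.Nrm
import Pool.Agent.Lib.MP_1a91b9_nuT.CF.SRank

/-!
# DB: the infinite places and the rank of the units of a cyclic extension of an imaginary quadratic
field
-/

set_option autoImplicit false

namespace Pool.Agent.Lib.MP_1a91b9_nuT.DB

variable [CD]

open NumberField IsDedekindDomain

universe u

section
variable {k N : Type u} [Field k] [NumberField k] [Algebra K k] [Field N] [NumberField N]
  [Algebra k N] [IsGalois k N] (hk : Function.Bijective (algebraMap K k))

private theorem uma_placeK : IsTotallyComplex K ∧ ∀ v w : InfinitePlace K, v = w := by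
  have hfin := InfinitePlace.card_add_two_mul_card_eq_rank K
  have h2 : Module.finrank ℚ K = 2 := finrank_K
  have hc : InfinitePlace.IsComplex (InfinitePlace.mk (embK : K →ₐ[ℚ] ℂ).toRingHom) := by
    rw [InfinitePlace.isComplex_mk_iff]
    intro hr
    have h3 := congrArg (fun f : K →+* ℂ => f (ta : K)) hr
    have h4 : (starRingEnd ℂ) zt = zt := h3
    exact zt_ne (Complex.conj_eq_iff_im.1 h4)
  have h3 : 1 ≤ InfinitePlace.nrComplexPlaces K := by
    unfold InfinitePlace.nrComplexPlaces
    classical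
    exact Fintype.card_pos_iff.2 ⟨⟨_, hc⟩⟩
  rw [h2] at hfin
  have hre : InfinitePlace.nrRealPlaces K = 0 := by omega
  have hco : InfinitePlace.nrComplexPlaces K = 1 := by omega
  have hcard : Fintype.card (InfinitePlace K) = 1 := by
    rw [InfinitePlace.card_eq_nrRealPlaces_add_nrComplexPlaces, hre, hco]
  obtain ⟨w0, hw0⟩ := Fintype.card_eq_one_iff.mp hcard
  exact ⟨NumberField.nrRealPlaces_eq_zero_iff.mp hre, fun v w => (hw0 v).trans (hw0 w).symm⟩

include hk in
private theorem uma_place_k : (∀ v : InfinitePlace k, v.IsComplex) ∧ ∀ v w : InfinitePlace k, v = w := by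
  obtain ⟨h1, h2⟩ := uma_placeK
  refine ⟨fun v => InfinitePlace.IsComplex.of_comap (algebraMap K k)
    (h1.isComplex (v.comap (algebraMap K k))), fun v w => ?_⟩
  refine DFunLike.ext v w fun x => ?_
  obtain ⟨y, rfl⟩ := hk.2 x
  have h3 := congrArg (fun u : InfinitePlace K => u y)
    (h2 (v.comap (algebraMap K k)) (w.comap (algebraMap K k)))
  exact h3

include hk in
theorem inf_places (w0 : InfinitePlace N) :
    Function.Bijective (fun σ : Gal(N/k) => σ • w0) ∧ ∀ w : InfinitePlace N, w.IsComplex := by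
  obtain ⟨h1, h2⟩ := uma_place_k hk
  have h3 : ∀ w : InfinitePlace N, w.IsComplex := fun w =>
    InfinitePlace.IsComplex.of_comap (algebraMap k N) (h1 (w.comap (algebraMap k N)))
  refine ⟨⟨?_, ?_⟩, h3⟩
  · intro σ ρ h
    have h4 : InfinitePlace.IsUnramified k w0 :=
      InfinitePlace.isUnramified_iff.2 (Or.inr (h1 (w0.comap (algebraMap k N))))
    have h5 := h4.stabilizer_eq_bot
    have h6 : ρ⁻¹ * σ ∈ MulAction.stabilizer Gal(N/k) w0 := by
      rw [MulAction.mem_stabilizer_iff, mul_smul]
      have h7 : σ • w0 = ρ • w0 := h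
      rw [h7, inv_smul_smul]
    rw [h5, Subgroup.mem_bot] at h6
    exact (inv_mul_eq_one.1 h6).symm
  · intro w
    exact InfinitePlace.exists_smul_eq_of_comap_eq (h2 (w0.comap (algebraMap k N)) (w.comap (algebraMap k N)))


variable {τ : Gal(N/k)} (hτ : ∀ σ : Gal(N/k), σ ∈ Subgroup.zpowers τ) {n : ℕ}
  (hn : Module.finrank k N = n)


include hk hτ hn


omit hτ in
theorem unit_rank :
    Module.finrank ℤ (CF.SU (∅ : Set (HeightOneSpectrum (𝓞 N)))) + 1 = n := by
  obtain ⟨w0⟩ := (inferInstance : Nonempty (InfinitePlace N))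
  have hb := (inf_places hk w0).1
  have h1 : Nat.card Gal(N/k) = Nat.card (InfinitePlace N) := Nat.card_eq_of_bijective _ hb
  rw [IsGalois.card_aut_eq_finrank, hn, Nat.card_eq_fintype_card] at h1
  rw [CF.su_finrank _ Set.finite_empty, Set.ncard_empty, add_zero]
  have h2 : 0 < n := by
    rw [← hn]
    exact Module.finrank_pos
  unfold Units.rank
  omega

end

end Pool.Agent.Lib.MP_1a91b9_nuT.DB
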