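import Pool.Agent.Lib.MP_1a91b9_nuT.Base

/-!
# Prime elements of degree one, residue systems, embeddings: the parts of DB which do not depend on
the curve
-/

set_option autoImplicit false

namespace Pool.Agent.Lib.MP_1a91b9_nuT.DB

variable [CD]

open NumberField IsDedekindDomain

/-- `β` is a prime element of norm the prime number `p` -/
structure Deg1 (β : 𝓞 K) (p : ℕ) : Prop where
  prime : p.Prime
  norm : Ideal.absNorm (Ideal.span {β}) = p

section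
variable {β : 𝓞 K} {p : ℕ}

private theorem toa_equiv (h : Deg1 β p) :
    Nonempty (ZMod p ≃+* (𝓞 K ⧸ Ideal.span {β})) := by
  have hp : Fact p.Prime := ⟨h.prime⟩
  have h1 : Nat.card (𝓞 K ⧸ Ideal.span {β}) = p := h.norm
  have hfin : Finite (𝓞 K ⧸ Ideal.span {β}) :=
    Nat.finite_of_card_ne_zero (by rw [h1]; exact h.prime.ne_zero)
  have hF : Fintype (𝓞 K ⧸ Ideal.span {β}) := Fintype.ofFinite _
  rw [Nat.card_eq_fintype_card] at h1
  exact ⟨ZMod.ringEquivOfPrime _ h.prime h1⟩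

theorem Deg1.exists_int (h : Deg1 β p) (c : 𝓞 K) : ∃ k : ℕ, k < p ∧ β ∣ c - k := by
  have hp : Fact p.Prime := ⟨h.prime⟩
  obtain ⟨e⟩ := toa_equiv h
  obtain ⟨z, hz⟩ := e.surjective (Ideal.Quotient.mk (Ideal.span {β}) c)
  refine ⟨z.val, ZMod.val_lt z, ?_⟩
  rw [← Ideal.mem_span_singleton, ← Ideal.Quotient.eq_zero_iff_mem, map_sub, ← hz, map_natCast,
    ← map_natCast e, ZMod.natCast_zmod_val, sub_self]

theorem Deg1.dvd_int_iff (h : Deg1 β p) (n : ℤ) : β ∣ (n : 𝓞 K) ↔ (p : ℤ) ∣ n := by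
  obtain ⟨e⟩ := toa_equiv h
  rw [← Ideal.mem_span_singleton, ← Ideal.Quotient.eq_zero_iff_mem, map_intCast,
    ← map_intCast e, map_eq_zero_iff e e.injective, ZMod.intCast_zmod_eq_zero_iff_dvd]

theorem Deg1.isPrime (h : Deg1 β p) : Prime β := by
  have h0 : β ≠ 0 := by
    rintro rfl
    have h1 := h.norm
    rw [Ideal.span_singleton_eq_bot.2 rfl, Ideal.absNorm_bot] at h1
    exact h.prime.ne_zero h1.symm
  rw [← Ideal.span_singleton_prime h0]
  apply Ideal.isPrime_of_irreducible_absNorm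
  rw [h.norm]
  exact h.prime


end

/-- `T` is a system of representatives of the nonzero classes of `𝓞 K / (β)` -/
structure IsRes (β : 𝓞 K) (T : Finset (𝓞 K)) : Prop where
  nz : ∀ a ∈ T, ¬ β ∣ a
  ex : ∀ c : 𝓞 K, ¬ β ∣ c → ∃ a ∈ T, β ∣ c - a
  uniq : ∀ a ∈ T, ∀ b ∈ T, β ∣ a - b → a = b

theorem exists_isRes {β : 𝓞 K} (hβ : β ≠ 0) :
    ∃ T : Finset (𝓞 K), IsRes β T ∧ T.card + 1 = Ideal.absNorm (Ideal.span {β}) := by
  classical
  have hI : Ideal.span {β} ≠ ⊥ := by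
    rw [Ne, Ideal.span_singleton_eq_bot]
    exact hβ
  have hfin : Finite (𝓞 K ⧸ Ideal.span {β}) := Ideal.finiteQuotientOfFreeOfNeBot _ hI
  have : Fintype (𝓞 K ⧸ Ideal.span {β}) := Fintype.ofFinite _
  set r : 𝓞 K ⧸ Ideal.span {β} → 𝓞 K := Function.surjInv Ideal.Quotient.mk_surjective with hr
  have hmk : ∀ q, Ideal.Quotient.mk (Ideal.span {β}) (r q) = q :=
    Function.surjInv_eq Ideal.Quotient.mk_surjective
  have hinj : Function.Injective r := by
    intro q q' h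
    rw [← hmk q, h, hmk q']
  have hd : ∀ c : 𝓞 K, Ideal.Quotient.mk (Ideal.span {β}) c = 0 ↔ β ∣ c := by
    intro c
    rw [Ideal.Quotient.eq_zero_iff_mem, Ideal.mem_span_singleton]
  refine ⟨(Finset.univ.erase 0).image r, ⟨?_, ?_, ?_⟩, ?_⟩
  · intro a ha hb
    obtain ⟨q, hq, rfl⟩ := Finset.mem_image.1 ha
    rw [← hd, hmk] at hb
    exact (Finset.mem_erase.1 hq).1 hb
  · intro c hc
    refine ⟨r (Ideal.Quotient.mk (Ideal.span {β}) c), Finset.mem_image.2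
      ⟨_, Finset.mem_erase.2 ⟨fun h => hc ((hd c).1 h), Finset.mem_univ _⟩, rfl⟩, ?_⟩
    rw [← hd, map_sub, hmk, sub_self]
  · intro a ha b hb h
    obtain ⟨q, hq, rfl⟩ := Finset.mem_image.1 ha
    obtain ⟨q', hq', rfl⟩ := Finset.mem_image.1 hb
    rw [← hd, map_sub, hmk, hmk, sub_eq_zero] at h
    rw [h]
  · rw [Finset.card_image_of_injective _ hinj, Finset.card_erase_of_mem (Finset.mem_univ _),
      Ideal.absNorm_apply, Submodule.cardQuot_apply, Nat.card_eq_fintype_card, Finset.card_univ]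
    have : 0 < Fintype.card (𝓞 K ⧸ Ideal.span {β}) := Fintype.card_pos
    omega

theorem isRes_deg1 {β : 𝓞 K} {p : ℕ} (h : Deg1 β p) :
    ∃ T : Finset (𝓞 K), IsRes β T ∧ (∀ a ∈ T, ∃ n ∈ Finset.Ico 1 p, a = (n : 𝓞 K)) ∧
      ∀ n ∈ Finset.Ico 1 p, (n : 𝓞 K) ∈ T := by
  classical
  refine ⟨(Finset.Ico 1 p).image (fun n : ℕ => (n : 𝓞 K)), ⟨?_, ?_, ?_⟩, ?_, ?_⟩
  · intro a ha hb
    obtain ⟨n, hn, rfl⟩ := Finset.mem_image.1 ha
    have h1 := (h.dvd_int_iff (n : ℤ)).1 (by simpa using hb)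
    rw [Int.natCast_dvd_natCast] at h1
    obtain ⟨h2, h3⟩ := Finset.mem_Ico.1 hn
    have := Nat.le_of_dvd (by omega) h1
    omega
  · intro c hc
    obtain ⟨k, hk, hck⟩ := h.exists_int c
    refine ⟨(k : 𝓞 K), Finset.mem_image.2 ⟨k, Finset.mem_Ico.2 ⟨?_, hk⟩, rfl⟩, hck⟩
    rcases Nat.eq_zero_or_pos k with h0 | h0
    · exfalso
      rw [h0, Nat.cast_zero, sub_zero] at hck
      exact hc hck
    · exact h0
  · intro a ha b hb hab
    obtain ⟨n, hn, rfl⟩ := Finset.mem_image.1 ha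
    obtain ⟨m, hm, rfl⟩ := Finset.mem_image.1 hb
    have h1 := (h.dvd_int_iff ((n : ℤ) - m)).1 (by push_cast; exact hab)
    obtain ⟨h2, h3⟩ := Finset.mem_Ico.1 hn
    obtain ⟨h4, h5⟩ := Finset.mem_Ico.1 hm
    have h6 : (n : ℤ) - m = 0 := Int.eq_zero_of_abs_lt_dvd h1 (by rw [abs_lt]; omega)
    have h7 : n = m := by omega
    rw [h7]
  · intro a ha
    obtain ⟨n, hn, rfl⟩ := Finset.mem_image.1 ha
    exact ⟨n, hn, rfl⟩
  · intro n hn
    exact Finset.mem_image.2 ⟨n, hn, rfl⟩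

universe u

theorem exists_emb (F : Type u) [Field F] [NumberField F] [Algebra K F] :
    Nonempty (F →ₐ[K] ℂ) := by
  have h : Algebra.IsAlgebraic K F := Algebra.IsAlgebraic.tower_top (K := ℚ) K
  exact ⟨IsAlgClosed.lift⟩

theorem mem_all_integral {x : ℂ} (h : ∀ A : ValuationSubring ℂ, x ∈ A) : IsIntegral ℤ x := by
  rcases eq_or_ne x 0 with rfl | hx
  · exact isIntegral_zero
  have hx' : x⁻¹ ≠ 0 := inv_ne_zero hx
  let _ := invertibleOfNonzero hx'
  set B := Algebra.adjoin ℤ {x⁻¹} with hB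
  set xinv : B := ⟨x⁻¹, Algebra.subset_adjoin rfl⟩ with hxinv
  by_cases hI : (⊥ : Ideal ℤ).map (algebraMap ℤ B) ⊔ Ideal.span {xinv} = ⊤
  · obtain ⟨p, hp1, hp2⟩ := Algebra.exists_aeval_invOf_eq_zero_of_idealMap_adjoin_sup_span_eq_top
      x⁻¹ (⊥ : Ideal ℤ) bot_ne_top hI
    rw [invOf_eq_inv, inv_inv] at hp2
    refine ⟨p, ?_, ?_⟩
    · rw [Ideal.mem_bot] at hp1
      rw [Polynomial.Monic]
      linarith
    · rwa [← Polynomial.aeval_def]
  · exfalso
    obtain ⟨V, hV1, hV2⟩ := Ideal.image_subset_nonunits_valuationSubring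
      (A := B.toSubring) ((⊥ : Ideal ℤ).map (algebraMap ℤ B) ⊔ Ideal.span {xinv}) hI
    have h3 : x⁻¹ ∈ V.nonunits := hV2 ⟨xinv, le_sup_right (α := Ideal B)
      (Ideal.mem_span_singleton_self _), rfl⟩
    rcases V.mem_nonunits_iff_or.1 h3 with h4 | h4
    · exact hx' h4
    · rw [inv_inv] at h4
      exact h4 (h V)

end Pool.Agent.Lib.MP_1a91b9_nuT.DB
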