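import Pool.Agent.Lib.MP_1a91b9_nuT.DB.Bas
import Pool.Agent.Lib.MP_1a91b9_nuX.DB.Pd

/-!
# DB: the exponents `n` (an integral lift of the trace form)

PROOF (complete; stream DB of helper55). Jobs TrA (`exists_trD`), TrB (`TrD.*`, `lin_tr`), TrC
(`exists_primgen`).

`exists_trD`. `R = 𝓞 K/(ϖ)` is a field with `q` elements, of characteristic `ℓ` (`PD.dvd_int_iff`), a
`ZMod ℓ`-algebra (`ZMod.algebra`; `CharP R ℓ`). `T` from `exists_isRes`. `iv a` = a lift of the inverse of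
the class. `n a = ZMod.valMinAbs (Algebra.trace (ZMod ℓ) R (class of a))`. `cong` clear; `odd`:
`ZMod.valMinAbs_neg_of_ne_half` (`ℓ` odd); `add`: `(ZMod.valMinAbs x : ZMod ℓ) = x`
(`ZMod.coe_valMinAbs`). `orth`: in `R`: `∑_{a ∈ T} Tr(c/a) a = ∑_{b ≠ 0} Tr(c b) b⁻¹` (over all nonzero `b
: R`; `T` is in bijection with the nonzero classes). If `q = ℓ`: `Tr x = x`, sum `= c (q - 1) = - c`. If
`q = ℓ^2`: `Tr x = x + x^ℓ` (`FiniteField.algebraMap_trace_eq_sum_pow` if available, or: the trace is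
the sum of the conjugates `x, x^ℓ`), and `∑_{b ≠ 0} (c b)^ℓ b⁻¹ = c^ℓ ∑ b^(ℓ - 1) = 0`
(`FiniteField.sum_pow_units`, `ℓ - 1` is not divisible by `q - 1`). `dual`: `A` factors through a
`ZMod ℓ`-linear map `R → ZMod ℓ`; the trace form of the separable (finite) extension is nondegenerate
(`traceForm_nondegenerate`, `LinearMap.BilinForm.toDual` / `dualBasis`), so `A x = Tr(a x)`.
`TrD.zero`: `n 0 = n (-0) = - n 0`; `ϖ ∣ c → n c = n 0 = 0`. `TrD.sum_zero`: the sum over the classes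
`a` and `-a` (`a ↦` the representative of `-a` is an involution of `T`; `Finset.sum` over the bijection;
`iv (-a) = - iv a` modulo `ϖ`): the sum is equal to its opposite. `TrD.reindex`: for `d` not divisible
by `ϖ` `a ↦` the representative of `a d` is a bijection of `T` (injective on a finite set).
`lin_tr`: `dual` for `A`: `A x = n (a x)` modulo `ℓ` for some `a`. If `ϖ ∣ a` then `A = 0`. Otherwise let
`c` be arbitrary; `∑_{d ∈ T} n (a c (iv d)) d = - a c` modulo `ϖ` (`orth`); apply `H` (additive, zero on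
the multiples of `ϖ`, `map_sum`, `map_zsmul`): `H (a c) = - ∑ n (a c iv d) H d = - ∑ A (c iv d) H d = 0`
(`A (c iv d) = n (a c iv d)` in `ZMod ℓ`). `a` is invertible modulo `ϖ` (`PD.inv`), so `H = 0`.

`exists_primgen`. `R` as above, `Rˣ` is cyclic: `g0` with every nonzero class a power of `g0`. Some `g1` in
`{g0, g0 + ϖ}` has `¬ ϖ^2 ∣ g1^(q-1) - 1`: the difference of the two powers is
`(q - 1) g0^(q-2) ϖ` modulo `ϖ^2`. Write `ℓ = ϖ ϖ'` (`PD.dvd`), `ϖ'` is prime to `ϖ` (`PD.sq`, `ϖ` prime),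
hence to `ϖ^2`; CRT: `g = g1` modulo `ϖ^2` and `g = 0` modulo `ϖ'`. `Φ = ∑_{i < q-1} g^i`,
`Φ (g - 1) = g^(q-1) - 1`, so `¬ ϖ^2 ∣ Φ`; `Φ = 1` modulo `ϖ'` so `Φ` is prime to `ϖ'`. The norm
(`Ideal.absNorm` of `(Φ)`, `Ideal.absNorm_span_singleton`: natAbs of `Algebra.norm ℤ`): `Φ = Φ' ` or
`Φ = ϖ Φ'` with `Φ'` prime to `ϖ` and to `ϖ'`, hence to `ℓ`, `N(ϖ) = q`, and `N(Φ')` is prime to `ℓ`: if
`ℓ ∣ N(Φ')` then `ℓ ∣ Φ' * conj Φ'` in `𝓞 K`; simpler: `Φ' y = 1` modulo `ℓ` for some `y`, and the norm of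
`1 + ℓ z` is `1` modulo `ℓ` (`N(m + n om) = m^2 - m n + n^2`, `S3.norm_coords`), so `N(Φ') N(y) = 1`
modulo `ℓ`. So `N(Φ)` is prime to `ℓ` or `q` times a number prime to `ℓ`: not divisible by `ℓ q`.
-/

set_option autoImplicit false

namespace Pool.Agent.Lib.MP_1a91b9_nuT.DB

variable [CD]

open NumberField IsDedekindDomain Pool.Agent.Lib.MP_1a91b9_nuX.DB

universe u

noncomputable section

/-- representatives `T` of the nonzero classes modulo `ϖ`, inverses `iv`, exponents `n` -/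
structure TrD (ϖ : 𝓞 K) (ℓ : ℕ) (T : Finset (𝓞 K)) (iv : 𝓞 K → 𝓞 K) (n : 𝓞 K → ℤ) : Prop where
  res : IsRes ϖ T
  inv : ∀ a : 𝓞 K, ¬ ϖ ∣ a → ϖ ∣ a * iv a - 1
  cong : ∀ a b : 𝓞 K, ϖ ∣ a - b → n a = n b
  odd : ∀ a : 𝓞 K, n (-a) = -n a
  add : ∀ a b : 𝓞 K, (ℓ : ℤ) ∣ n (a + b) - n a - n b
  orth : ∀ c : 𝓞 K, ϖ ∣ ∑ a ∈ T, (n (c * iv a) : 𝓞 K) * a + c
  dual : ∀ A : 𝓞 K →+ ZMod ℓ, (∀ x : 𝓞 K, ϖ ∣ x → A x = 0) →
    ∃ a : 𝓞 K, ∀ x : 𝓞 K, A x = ((n (a * x) : ℤ) : ZMod ℓ)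

private theorem tra_pow {L : Type*} [Field L] (x : Lˣ) {m : ℕ} (hm : 1 ≤ m) :
    ((x⁻¹ : Lˣ) : L) ^ m * (x : L) = ((x⁻¹ : Lˣ) : L) ^ (m - 1) := by
  obtain ⟨m, rfl⟩ := Nat.exists_eq_add_of_le hm
  rw [Nat.add_sub_cancel_left, pow_add, pow_one]
  have h1 : ((x⁻¹ : Lˣ) : L) * (x : L) = 1 := by
    rw [← Units.val_mul, inv_mul_cancel, Units.val_one]
  calc ((x⁻¹ : Lˣ) : L) * ((x⁻¹ : Lˣ) : L) ^ m * (x : L)
      = (((x⁻¹ : Lˣ) : L) * (x : L)) * ((x⁻¹ : Lˣ) : L) ^ m := by ring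
    _ = ((x⁻¹ : Lˣ) : L) ^ m := by rw [h1, one_mul]

private theorem tra_ff (L : Type*) [Field L] [Fintype L] [DecidableEq L] {ℓ : ℕ} [hl : Fact ℓ.Prime]
    [Algebra (ZMod ℓ) L] (C : L) :
    ∑ x : Lˣ, algebraMap (ZMod ℓ) L (Algebra.trace (ZMod ℓ) L (C * ((x⁻¹ : Lˣ) : L))) * (x : L) =
      -C := by
  have hcard : Fintype.card L = ℓ ^ Module.finrank (ZMod ℓ) L := by
    rw [Module.card_eq_pow_finrank (K := ZMod ℓ) (V := L), ZMod.card]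
  have hf : 0 < Module.finrank (ZMod ℓ) L := Module.finrank_pos
  have hl2 : 2 ≤ ℓ := hl.out.two_le
  have h1 : ∀ x : Lˣ, algebraMap (ZMod ℓ) L (Algebra.trace (ZMod ℓ) L (C * ((x⁻¹ : Lˣ) : L))) *
      (x : L) = ∑ i ∈ Finset.range (Module.finrank (ZMod ℓ) L),
        C ^ (ℓ ^ i) * ((x⁻¹ : Lˣ) : L) ^ (ℓ ^ i - 1) := by
    intro x
    rw [FiniteField.algebraMap_trace_eq_sum_pow, Finset.sum_mul]
    refine Finset.sum_congr rfl fun i _ => ?_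
    rw [Nat.card_zmod, mul_pow, mul_assoc, tra_pow x (Nat.one_le_pow _ _ (by omega))]
  have h2 : ∀ i ∈ Finset.range (Module.finrank (ZMod ℓ) L),
      ∑ x : Lˣ, C ^ (ℓ ^ i) * ((x⁻¹ : Lˣ) : L) ^ (ℓ ^ i - 1) = if i = 0 then -C else 0 := by
    intro i hi
    rw [← Finset.mul_sum]
    have h3 : ∑ x : Lˣ, ((x⁻¹ : Lˣ) : L) ^ (ℓ ^ i - 1) = ∑ x : Lˣ, (x : L) ^ (ℓ ^ i - 1) :=
      Equiv.sum_comp (Equiv.inv Lˣ) (fun x : Lˣ => (x : L) ^ (ℓ ^ i - 1))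
    rw [h3, FiniteField.sum_pow_units]
    by_cases h0 : i = 0
    · subst h0
      simp
    · have hlt : ℓ ^ i < ℓ ^ Module.finrank (ZMod ℓ) L :=
        Nat.pow_lt_pow_right (by omega) (Finset.mem_range.1 hi)
      have hge : ℓ ^ 1 ≤ ℓ ^ i := Nat.pow_le_pow_right (by omega) (by omega)
      rw [pow_one] at hge
      have hnd : ¬ Fintype.card L - 1 ∣ ℓ ^ i - 1 := by
        intro hd
        rw [hcard] at hd
        have := Nat.le_of_dvd (by omega) hd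
        omega
      rw [if_neg hnd, if_neg h0, mul_zero]
  simp only [h1]
  rw [Finset.sum_comm, Finset.sum_congr rfl h2, Finset.sum_ite_eq' (Finset.range _) 0 (fun _ => -C),
    if_pos (Finset.mem_range.2 hf)]

theorem exists_trD {ϖ : 𝓞 K} {ℓ q : ℕ} (h : PD ϖ ℓ q) :
    ∃ (T : Finset (𝓞 K)) (iv : 𝓞 K → 𝓞 K) (n : 𝓞 K → ℤ), TrD ϖ ℓ T iv n := by
  classical
  have hl : Fact ℓ.Prime := ⟨h.hl⟩
  have hI0 : Ideal.span {ϖ} ≠ ⊥ := by
    rw [Ne, Ideal.span_singleton_eq_bot]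
    exact h.prime.ne_zero
  have hIp : (Ideal.span {ϖ}).IsPrime := (Ideal.span_singleton_prime h.prime.ne_zero).2 h.prime
  have hIm : (Ideal.span {ϖ}).IsMaximal := hIp.isMaximal hI0
  let _ : Field (𝓞 K ⧸ Ideal.span {ϖ}) := Ideal.Quotient.field _
  have hfin : Finite (𝓞 K ⧸ Ideal.span {ϖ}) := Ring.HasFiniteQuotients.finiteQuotient hI0
  let _ : Fintype (𝓞 K ⧸ Ideal.span {ϖ}) := Fintype.ofFinite _
  have hmk : ∀ a : 𝓞 K, Ideal.Quotient.mk (Ideal.span {ϖ}) a = 0 ↔ ϖ ∣ a := by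
    intro a
    rw [Ideal.Quotient.eq_zero_iff_mem, Ideal.mem_span_singleton]
  have hmk2 : ∀ a b : 𝓞 K, Ideal.Quotient.mk (Ideal.span {ϖ}) a =
      Ideal.Quotient.mk (Ideal.span {ϖ}) b ↔ ϖ ∣ a - b := by
    intro a b
    rw [← sub_eq_zero, ← map_sub, hmk]
  have hchar : CharP (𝓞 K ⧸ Ideal.span {ϖ}) ℓ := by
    refine ⟨fun x => ?_⟩
    have h1 := h.dvd_int_iff (x : ℤ)
    rw [← map_natCast (Ideal.Quotient.mk (Ideal.span {ϖ})) x, hmk]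
    rw [Int.cast_natCast] at h1
    rw [h1, Int.natCast_dvd_natCast]
  let _ : Algebra (ZMod ℓ) (𝓞 K ⧸ Ideal.span {ϖ}) := ZMod.algebra _ ℓ
  obtain ⟨T, hT, -⟩ := exists_isRes h.prime.ne_zero
  have hiv : ∀ a : 𝓞 K, ∃ d : 𝓞 K, ¬ ϖ ∣ a → ϖ ∣ a * d - 1 := by
    intro a
    by_cases ha : ϖ ∣ a
    · exact ⟨0, fun h1 => absurd ha h1⟩
    · obtain ⟨d, hd⟩ := h.inv ha
      exact ⟨d, fun _ => hd⟩
  choose iv hiv using hiv
  set tr : 𝓞 K → ZMod ℓ := fun a => Algebra.trace (ZMod ℓ) (𝓞 K ⧸ Ideal.span {ϖ})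
    (Ideal.Quotient.mk (Ideal.span {ϖ}) a) with htr
  have hcast : ∀ a : 𝓞 K, (((tr a).valMinAbs : ℤ) : ZMod ℓ) = tr a := fun a =>
    ZMod.coe_valMinAbs _
  have hcast2 : ∀ a : 𝓞 K, (((tr a).valMinAbs : ℤ) : 𝓞 K ⧸ Ideal.span {ϖ}) =
      algebraMap (ZMod ℓ) _ (tr a) := by
    intro a
    rw [← hcast a, map_intCast, hcast a]
  refine ⟨T, iv, fun a => (tr a).valMinAbs, hT, hiv, ?_, ?_, ?_, ?_, ?_⟩
  · intro a b hab
    have : tr a = tr b := by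
      rw [htr]
      simp only
      rw [(hmk2 a b).2 hab]
    rw [this]
  · intro a
    have h1 : tr (-a) = -tr a := by
      rw [htr]
      simp only
      rw [map_neg, map_neg]
    rw [h1]
    refine ZMod.valMinAbs_neg_of_ne_half ?_
    intro h2
    have h3 : 2 ∣ ℓ := ⟨_, h2.symm⟩
    have h4 := (Nat.prime_dvd_prime_iff_eq Nat.prime_two h.hl).1 h3
    have := h.five
    omega
  · intro a b
    have h1 : tr (a + b) = tr a + tr b := by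
      rw [htr]
      simp only
      rw [map_add, map_add]
    rw [← ZMod.intCast_zmod_eq_zero_iff_dvd]
    push_cast
    rw [h1]
    ring
  · intro c
    rw [← hmk, map_add, map_sum]
    have h1 : ∀ a ∈ T, Ideal.Quotient.mk (Ideal.span {ϖ})
        ((((tr (c * iv a)).valMinAbs : ℤ) : 𝓞 K) * a) =
        algebraMap (ZMod ℓ) (𝓞 K ⧸ Ideal.span {ϖ}) (Algebra.trace (ZMod ℓ) (𝓞 K ⧸ Ideal.span {ϖ})
          (Ideal.Quotient.mk (Ideal.span {ϖ}) c * (Ideal.Quotient.mk (Ideal.span {ϖ}) a)⁻¹)) *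
          Ideal.Quotient.mk (Ideal.span {ϖ}) a := by
      intro a ha
      have ha0 : Ideal.Quotient.mk (Ideal.span {ϖ}) a ≠ 0 := fun h0 => hT.nz a ha ((hmk a).1 h0)
      have h2 : (Ideal.Quotient.mk (Ideal.span {ϖ}) a)⁻¹ =
          Ideal.Quotient.mk (Ideal.span {ϖ}) (iv a) := by
        have h3 := (hmk2 (a * iv a) 1).2 (hiv a (hT.nz a ha))
        rw [map_mul, map_one] at h3
        exact inv_eq_of_mul_eq_one_right h3
      rw [map_mul, map_intCast, hcast2, h2, ← map_mul (Ideal.Quotient.mk (Ideal.span {ϖ}))]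
    rw [Finset.sum_congr rfl h1]
    have h4 : ∑ a ∈ T, algebraMap (ZMod ℓ) (𝓞 K ⧸ Ideal.span {ϖ}) (Algebra.trace (ZMod ℓ)
          (𝓞 K ⧸ Ideal.span {ϖ}) (Ideal.Quotient.mk (Ideal.span {ϖ}) c *
            (Ideal.Quotient.mk (Ideal.span {ϖ}) a)⁻¹)) * Ideal.Quotient.mk (Ideal.span {ϖ}) a =
        ∑ x : (𝓞 K ⧸ Ideal.span {ϖ})ˣ, algebraMap (ZMod ℓ) (𝓞 K ⧸ Ideal.span {ϖ})
          (Algebra.trace (ZMod ℓ) (𝓞 K ⧸ Ideal.span {ϖ}) (Ideal.Quotient.mk (Ideal.span {ϖ}) c *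
            ((x⁻¹ : (𝓞 K ⧸ Ideal.span {ϖ})ˣ) : 𝓞 K ⧸ Ideal.span {ϖ}))) *
            (x : 𝓞 K ⧸ Ideal.span {ϖ}) := by
      refine Finset.sum_bij (fun a ha => Units.mk0 (Ideal.Quotient.mk (Ideal.span {ϖ}) a)
        (fun h0 => hT.nz a ha ((hmk a).1 h0))) (fun _ _ => Finset.mem_univ _) ?_ ?_ ?_
      · intro a ha b hb hab
        have h5 := congrArg Units.val hab
        rw [Units.val_mk0, Units.val_mk0, hmk2] at h5
        exact hT.uniq a ha b hb h5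
      · intro x _
        obtain ⟨b, hb⟩ := Ideal.Quotient.mk_surjective (x : 𝓞 K ⧸ Ideal.span {ϖ})
        have hb0 : ¬ ϖ ∣ b := fun h0 => x.ne_zero (by rw [← hb, (hmk b).2 h0])
        obtain ⟨a, ha, hab⟩ := hT.ex b hb0
        refine ⟨a, ha, Units.ext ?_⟩
        rw [Units.val_mk0, ← hb, ← (hmk2 b a).2 hab]
      · intro a ha
        rw [Units.val_inv_eq_inv_val, Units.val_mk0]
    rw [h4, tra_ff, neg_add_cancel]
  · intro A hA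
    -- the induced map on the residue field
    let A' : (𝓞 K ⧸ Ideal.span {ϖ}) →+ ZMod ℓ :=
      QuotientAddGroup.lift (Submodule.toAddSubgroup (Ideal.span {ϖ})) A (by
        intro x hx
        exact hA x (Ideal.mem_span_singleton.1 hx))
    have hA' : ∀ x : 𝓞 K, A' (Ideal.Quotient.mk (Ideal.span {ϖ}) x) = A x := fun x => rfl
    let Al : (𝓞 K ⧸ Ideal.span {ϖ}) →ₗ[ZMod ℓ] ZMod ℓ := A'.toZModLinearMap ℓ
    have hnd := traceForm_nondegenerate (ZMod ℓ) (𝓞 K ⧸ Ideal.span {ϖ})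
    obtain ⟨a, ha⟩ := Ideal.Quotient.mk_surjective
      ((LinearMap.BilinForm.toDual (Algebra.traceForm (ZMod ℓ) (𝓞 K ⧸ Ideal.span {ϖ})) hnd).symm Al)
    refine ⟨a, fun x => ?_⟩
    rw [hcast]
    have h1 := LinearMap.BilinForm.apply_toDual_symm_apply
      (B := Algebra.traceForm (ZMod ℓ) (𝓞 K ⧸ Ideal.span {ϖ})) (hB := hnd) Al
      (Ideal.Quotient.mk (Ideal.span {ϖ}) x)
    rw [← ha, Algebra.traceForm_apply, ← map_mul (Ideal.Quotient.mk (Ideal.span {ϖ}))] at h1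
    rw [← hA' x]
    exact h1.symm

section
variable {ϖ : 𝓞 K} {ℓ q : ℕ} (h : PD ϖ ℓ q) {T : Finset (𝓞 K)} {iv : 𝓞 K → 𝓞 K} {n : 𝓞 K → ℤ}
  (hT : TrD ϖ ℓ T iv n)
include h hT

theorem TrD.zero {c : 𝓞 K} (hc : ϖ ∣ c) : n c = 0 := by
  have h1 : n c = n 0 := hT.cong c 0 (by rwa [sub_zero])
  have h2 := hT.odd 0
  rw [neg_zero] at h2
  omega

private theorem trB_reindex {M : Type*} [CommMonoid M] (f : 𝓞 K → M)
    (hf : ∀ a b : 𝓞 K, ϖ ∣ a - b → f a = f b) {d : 𝓞 K} (hd : ¬ ϖ ∣ d) :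
    ∏ a ∈ T, f (a * d) = ∏ a ∈ T, f a := by
  classical
  have hp := h.prime
  have hnz : ∀ a b : 𝓞 K, ¬ ϖ ∣ a → ¬ ϖ ∣ b → ¬ ϖ ∣ a * b := fun a b ha hb hab =>
    (hp.dvd_or_dvd hab).elim ha hb
  have hex : ∀ a : 𝓞 K, a ∈ T → ∃ b ∈ T, ϖ ∣ a * d - b := fun a ha =>
    hT.res.ex _ (hnz a d (hT.res.nz a ha) hd)
  choose! i hi1 hi2 using hex
  obtain ⟨g, hg⟩ := PD.inv h hd
  have hg0 : ¬ ϖ ∣ g := by
    intro hg1
    have h1 : ϖ ∣ d * g := Dvd.dvd.mul_left hg1 d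
    have h2 : ϖ ∣ d * g - (d * g - 1) := dvd_sub h1 hg
    rw [sub_sub_cancel] at h2
    exact hp.not_isUnit (isUnit_of_dvd_one h2)
  refine Finset.prod_bij (fun a _ => i a) (fun a ha => hi1 a ha) ?_ ?_ ?_
  · intro a ha b hb hab
    apply hT.res.uniq a ha b hb
    have h1 : ϖ ∣ (a - b) * d := by
      have h2 : (a - b) * d = (a * d - i a) - (b * d - i b) := by
        have : i a = i b := hab
        rw [this]; ring
      rw [h2]
      exact dvd_sub (hi2 a ha) (hi2 b hb)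
    exact (hp.dvd_or_dvd h1).resolve_right hd
  · intro b hb
    obtain ⟨a, ha, hab⟩ := hT.res.ex (b * g) (hnz b g (hT.res.nz b hb) hg0)
    refine ⟨a, ha, hT.res.uniq _ (hi1 a ha) _ hb ?_⟩
    have h2 : i a - b = -(a * d - i a) - (b * g - a) * d + b * (d * g - 1) := by ring
    rw [h2]
    exact dvd_add (dvd_sub ((dvd_neg).2 (hi2 a ha)) (Dvd.dvd.mul_right hab d)) (Dvd.dvd.mul_left hg b)
  · intro a ha
    exact hf _ _ (hi2 a ha)

private theorem trB_iv {a b : 𝓞 K} (ha : ¬ ϖ ∣ a) (hab : ϖ ∣ a - b) : ϖ ∣ iv a - iv b := by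
  have hp := h.prime
  have hb : ¬ ϖ ∣ b := by
    intro hb
    apply ha
    have := dvd_add hab hb
    rwa [sub_add_cancel] at this
  have h1 : ϖ ∣ a * (iv a - iv b) := by
    have h2 : a * (iv a - iv b) = (a * iv a - 1) - (b * iv b - 1) - (a - b) * iv b := by ring
    rw [h2]
    exact dvd_sub (dvd_sub (hT.inv a ha) (hT.inv b hb)) (Dvd.dvd.mul_right hab _)
  exact (hp.dvd_or_dvd h1).resolve_left ha

theorem TrD.sum_zero (c : 𝓞 K) : ∑ a ∈ T, n (c * iv a) = 0 := by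
  classical
  have hp := h.prime
  have hone : ¬ ϖ ∣ (-1 : 𝓞 K) := by
    intro h1
    exact hp.not_isUnit (isUnit_of_dvd_one ((dvd_neg).1 h1))
  let f : 𝓞 K → Multiplicative ℤ := fun a =>
    if ϖ ∣ a then 1 else Multiplicative.ofAdd (n (c * iv a))
  have hf : ∀ a b : 𝓞 K, ϖ ∣ a - b → f a = f b := by
    intro a b hab
    have hiff : ϖ ∣ a ↔ ϖ ∣ b := by
      constructor
      · intro ha
        have := dvd_sub ha hab
        rwa [sub_sub_cancel] at this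
      · intro hb
        have := dvd_add hab hb
        rwa [sub_add_cancel] at this
    by_cases ha : ϖ ∣ a
    · simp only [f, if_pos ha, if_pos (hiff.1 ha)]
    · simp only [f, if_neg ha, if_neg (fun hb => ha (hiff.2 hb))]
      congr 1
      apply hT.cong
      rw [← mul_sub]
      exact Dvd.dvd.mul_left (trB_iv h hT ha hab) c
  have hprod := trB_reindex h hT f hf hone
  have h1 : ∏ a ∈ T, f a = Multiplicative.ofAdd (∑ a ∈ T, n (c * iv a)) := by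
    rw [ofAdd_sum]
    refine Finset.prod_congr rfl (fun a ha => ?_)
    simp only [f, if_neg (hT.res.nz a ha)]
  have h2 : ∏ a ∈ T, f (a * -1) = Multiplicative.ofAdd (∑ a ∈ T, -n (c * iv a)) := by
    rw [ofAdd_sum]
    refine Finset.prod_congr rfl (fun a ha => ?_)
    have ha0 := hT.res.nz a ha
    have ha1 : ¬ ϖ ∣ a * -1 := by
      intro h3
      exact (hp.dvd_or_dvd h3).elim ha0 hone
    simp only [f, if_neg ha1]
    congr 1
    rw [← hT.odd]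
    apply hT.cong
    have h4 : ϖ ∣ a * (iv (a * -1) + iv a) := by
      have h5 : a * (iv (a * -1) + iv a) = (a * iv a - 1) - ((a * -1) * iv (a * -1) - 1) := by ring
      rw [h5]
      exact dvd_sub (hT.inv a ha0) (hT.inv _ ha1)
    have h6 := (hp.dvd_or_dvd h4).resolve_left ha0
    have h7 : c * iv (a * -1) - -(c * iv a) = c * (iv (a * -1) + iv a) := by ring
    rw [h7]
    exact Dvd.dvd.mul_left h6 c
  rw [h1, h2] at hprod
  have h3 := Multiplicative.ofAdd.injective hprod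
  rw [Finset.sum_neg_distrib] at h3
  omega

/-- multiplication by `d` permutes the classes -/
theorem TrD.reindex {M : Type*} [CommMonoid M] (f : 𝓞 K → M)
    (hf : ∀ a b : 𝓞 K, ϖ ∣ a - b → f a = f b) {d : 𝓞 K} (hd : ¬ ϖ ∣ d) :
    ∏ a ∈ T, f (a * d) = ∏ a ∈ T, f a :=
  trB_reindex h hT f hf hd


end

private theorem trc_norm (ℓ : ℕ) (z : 𝓞 K) :
    (ℓ : ℤ) ∣ Algebra.norm ℤ (1 + (ℓ : 𝓞 K) * z) - 1 := by
  classical
  rw [← ZMod.intCast_zmod_eq_zero_iff_dvd, Int.cast_sub, Int.cast_one, sub_eq_zero]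
  have hb := Algebra.norm_eq_matrix_det (Module.Free.chooseBasis ℤ (𝓞 K)) (1 + (ℓ : 𝓞 K) * z)
  rw [hb]
  have h1 : (((Algebra.leftMulMatrix (Module.Free.chooseBasis ℤ (𝓞 K))
      (1 + (ℓ : 𝓞 K) * z)).det : ℤ) : ZMod ℓ) =
      ((Int.castRingHom (ZMod ℓ)).mapMatrix (Algebra.leftMulMatrix
        (Module.Free.chooseBasis ℤ (𝓞 K)) (1 + (ℓ : 𝓞 K) * z))).det := by
    rw [← RingHom.map_det]
    rfl
  rw [h1]
  have h2 : Algebra.leftMulMatrix (Module.Free.chooseBasis ℤ (𝓞 K)) (1 + (ℓ : 𝓞 K) * z) =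
      1 + (ℓ : ℤ) • Algebra.leftMulMatrix (Module.Free.chooseBasis ℤ (𝓞 K)) z := by
    rw [map_add, map_one]
    congr 1
    have h3 : (ℓ : 𝓞 K) * z = (ℓ : ℤ) • z := by simp
    rw [h3, map_zsmul]
  rw [h2, map_add, map_one, map_zsmul]
  have h4 : (ℓ : ℤ) • (Int.castRingHom (ZMod ℓ)).mapMatrix
      (Algebra.leftMulMatrix (Module.Free.chooseBasis ℤ (𝓞 K)) z) = 0 := by
    ext i j
    simp
  rw [h4, add_zero, Matrix.det_one]

/-- a generator of the nonzero classes, with a condition on the norm of the cyclotomic sum -/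
theorem exists_primgen {ϖ : 𝓞 K} {ℓ q : ℕ} (h : PD ϖ ℓ q) :
    ∃ g : 𝓞 K, (∀ c : 𝓞 K, ¬ ϖ ∣ c → ∃ i : ℕ, ϖ ∣ c - g ^ i) ∧ ¬ ϖ ∣ g ∧
      ¬ ((ℓ * q : ℕ) : ℤ) ∣ Algebra.norm ℤ (∑ i ∈ Finset.range (q - 1), g ^ i) := by
  classical
  have hq5 := h.q_five
  have hϖ0 : ϖ ≠ 0 := h.prime.ne_zero
  have hI0 : Ideal.span {ϖ} ≠ ⊥ := by
    rw [Ne, Ideal.span_singleton_eq_bot]
    exact hϖ0
  have hIp : (Ideal.span {ϖ}).IsPrime := (Ideal.span_singleton_prime hϖ0).mpr h.prime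
  have hIm : (Ideal.span {ϖ}).IsMaximal := hIp.isMaximal hI0
  have hfin : Finite (𝓞 K ⧸ Ideal.span {ϖ}) := Ideal.finiteQuotientOfFreeOfNeBot _ hI0
  let _ : Field (𝓞 K ⧸ Ideal.span {ϖ}) := Ideal.Quotient.field _
  have hmk : ∀ a b : 𝓞 K, Ideal.Quotient.mk (Ideal.span {ϖ}) a = Ideal.Quotient.mk _ b ↔
      ϖ ∣ a - b := by
    intro a b
    rw [Ideal.Quotient.eq, Ideal.mem_span_singleton]
  have hmk0 : ∀ a : 𝓞 K, Ideal.Quotient.mk (Ideal.span {ϖ}) a = 0 ↔ ϖ ∣ a := by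
    intro a
    rw [Ideal.Quotient.eq_zero_iff_mem, Ideal.mem_span_singleton]
  obtain ⟨u, hu⟩ := IsCyclic.exists_monoid_generator (α := (𝓞 K ⧸ Ideal.span {ϖ})ˣ)
  obtain ⟨g0, hg0⟩ := Ideal.Quotient.mk_surjective (I := Ideal.span {ϖ})
    ((u : (𝓞 K ⧸ Ideal.span {ϖ})ˣ) : 𝓞 K ⧸ Ideal.span {ϖ})
  -- any lift of the generator
  have hgen : ∀ g : 𝓞 K, ϖ ∣ g - g0 → (∀ c : 𝓞 K, ¬ ϖ ∣ c → ∃ i : ℕ, ϖ ∣ c - g ^ i) ∧ ¬ ϖ ∣ g := by
    intro g hg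
    have hgu : Ideal.Quotient.mk (Ideal.span {ϖ}) g = u := by
      rw [← hg0]
      exact (hmk g g0).mpr hg
    constructor
    · intro c hc
      have hc0 : Ideal.Quotient.mk (Ideal.span {ϖ}) c ≠ 0 := fun e => hc ((hmk0 c).mp e)
      obtain ⟨i, hi⟩ := Submonoid.mem_powers_iff _ _ |>.mp (hu (Units.mk0 _ hc0))
      refine ⟨i, (hmk _ _).mp ?_⟩
      rw [map_pow, hgu, ← Units.val_pow_eq_pow_val, hi, Units.val_mk0]
    · intro hd
      have h1 := (hmk0 g).mpr hd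
      rw [hgu] at h1
      exact u.ne_zero h1
  have hg0' := hgen g0 (by rw [sub_self]; exact dvd_zero _)
  -- the second order condition
  obtain ⟨g1, hg1, hg1'⟩ : ∃ g1 : 𝓞 K, ϖ ∣ g1 - g0 ∧ ¬ ϖ ^ 2 ∣ g1 ^ (q - 1) - 1 := by
    by_contra hcon
    push Not at hcon
    have h1 := hcon g0 (by rw [sub_self]; exact dvd_zero _)
    have h2 := hcon (g0 + ϖ) (by rw [add_sub_cancel_left])
    obtain ⟨t, ht⟩ := Polynomial.powAddExpansion g0 ϖ (q - 1)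
    have h3 : ϖ ^ 2 ∣ ((q - 1 : ℕ) : 𝓞 K) * g0 ^ (q - 1 - 1) * ϖ := by
      have h4 : ((q - 1 : ℕ) : 𝓞 K) * g0 ^ (q - 1 - 1) * ϖ =
          ((g0 + ϖ) ^ (q - 1) - 1) - (g0 ^ (q - 1) - 1) - t * ϖ ^ 2 := by
        rw [ht]; ring
      rw [h4]
      exact dvd_sub (dvd_sub h2 h1) (Dvd.intro_left t rfl)
    have h4 : ϖ ∣ ((q - 1 : ℕ) : 𝓞 K) * g0 ^ (q - 1 - 1) := by
      rw [sq] at h3
      exact (mul_dvd_mul_iff_right hϖ0).mp h3
    rcases h.prime.dvd_or_dvd h4 with h5 | h5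
    · have h6 : (ℓ : ℤ) ∣ ((q - 1 : ℕ) : ℤ) := by
        apply (h.dvd_int_iff _).mp
        exact_mod_cast h5
      have h7 : ℓ ∣ q - 1 := by exact_mod_cast h6
      have h8 := Nat.Coprime.eq_one_of_dvd h.coprime_q.symm h7
      exact h.hl.one_lt.ne' h8
    · exact hg0'.2 (h.prime.dvd_of_dvd_pow h5)
  obtain ⟨ϖ', hϖ'⟩ := h.dvd
  have hϖϖ' : ¬ ϖ ∣ ϖ' := by
    rintro ⟨t, rfl⟩
    exact h.sq ⟨t, by rw [hϖ']; ring⟩
  have hcop : IsCoprime ϖ ϖ' := by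
    obtain ⟨d, e, he⟩ := h.inv hϖϖ'
    exact ⟨-e, d, by linear_combination he⟩
  obtain ⟨a, b, hab⟩ : IsCoprime (ϖ ^ 2) ϖ' := hcop.pow_left
  obtain ⟨g, hg⟩ : ∃ g : 𝓞 K, g = g1 * b * ϖ' := ⟨_, rfl⟩
  have hgg1 : ϖ ^ 2 ∣ g - g1 := ⟨-(g1 * a), by rw [hg]; linear_combination g1 * hab⟩
  have hgϖ' : ϖ' ∣ g := ⟨g1 * b, by rw [hg]; ring⟩
  have hgg0 : ϖ ∣ g - g0 := by
    have h1 : g - g0 = (g - g1) + (g1 - g0) := by ring
    rw [h1]
    exact dvd_add ((Dvd.intro_left (ϖ ^ 1) (by ring)).trans hgg1) hg1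
  refine ⟨g, (hgen g hgg0).1, (hgen g hgg0).2, ?_⟩
  intro hdiv
  obtain ⟨Φ, hΦ⟩ : ∃ Φ : 𝓞 K, Φ = ∑ i ∈ Finset.range (q - 1), g ^ i := ⟨_, rfl⟩
  rw [← hΦ] at hdiv
  have hΦ1 : Φ * (g - 1) = g ^ (q - 1) - 1 := by rw [hΦ]; exact geom_sum_mul g (q - 1)
  have hΦ2 : ¬ ϖ ^ 2 ∣ Φ := by
    intro h1
    apply hg1'
    have h2 : ϖ ^ 2 ∣ g ^ (q - 1) - 1 := by
      rw [← hΦ1]
      exact Dvd.dvd.mul_right h1 _
    have h3 : ϖ ^ 2 ∣ g ^ (q - 1) - g1 ^ (q - 1) := hgg1.trans (sub_dvd_pow_sub_pow g g1 (q - 1))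
    have h4 : g1 ^ (q - 1) - 1 = (g ^ (q - 1) - 1) - (g ^ (q - 1) - g1 ^ (q - 1)) := by ring
    rw [h4]
    exact dvd_sub h2 h3
  have hΦ3 : ϖ' ∣ Φ - 1 := by
    obtain ⟨n, hn⟩ : ∃ n, q - 1 = n + 1 := ⟨q - 2, by omega⟩
    rw [hΦ, hn, Finset.sum_range_succ', pow_zero, add_sub_cancel_right]
    exact Finset.dvd_sum fun i _ => hgϖ'.trans (dvd_pow_self g (Nat.succ_ne_zero i))
  have hΦϖ' : IsCoprime Φ ϖ' := by
    obtain ⟨t, ht⟩ := hΦ3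
    exact ⟨1, -t, by linear_combination ht⟩
  -- the part prime to `ϖ`
  have key : ∀ Ψ : 𝓞 K, Ψ ∣ Φ → ¬ ϖ ∣ Ψ → ¬ (ℓ : ℤ) ∣ Algebra.norm ℤ Ψ := by
    intro Ψ h1 h2 h3
    have h4 : IsCoprime Ψ ϖ' := hΦϖ'.of_isCoprime_of_dvd_left h1
    have h5 : IsCoprime Ψ ϖ := by
      obtain ⟨d, e, he⟩ := h.inv h2
      exact ⟨d, -e, by linear_combination he⟩
    obtain ⟨y, z, hyz⟩ := h5.mul_right h4
    rw [← hϖ'] at hyz
    have h6 : y * Ψ = 1 + (ℓ : 𝓞 K) * (-z) := by linear_combination hyz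
    have h7 := trc_norm ℓ (-z)
    rw [← h6, map_mul] at h7
    have h8 : (ℓ : ℤ) ∣ Algebra.norm ℤ y * Algebra.norm ℤ Ψ := Dvd.dvd.mul_left h3 _
    have h9 : (ℓ : ℤ) ∣ 1 := by
      have := dvd_sub h8 h7
      rwa [sub_sub_cancel] at this
    have h10 : ℓ ∣ 1 := by exact_mod_cast h9
    exact h.hl.one_lt.ne' (Nat.dvd_one.mp h10)
  by_cases hc : ϖ ∣ Φ
  · obtain ⟨Ψ, hΨ⟩ := hc
    have h1 : ¬ ϖ ∣ Ψ := by
      rintro ⟨t, rfl⟩
      exact hΦ2 ⟨t, by rw [hΨ]; ring⟩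
    refine key Ψ ⟨ϖ, by rw [hΨ]; ring⟩ h1 ?_
    have h2 := h.norm
    rw [Ideal.absNorm_span_singleton] at h2
    have h3 : ((ℓ * q : ℕ) : ℤ) ∣ Algebra.norm ℤ ϖ * Algebra.norm ℤ Ψ := by
      rw [← map_mul, ← hΨ]
      exact hdiv
    have h4 : ℓ * q ∣ q * (Algebra.norm ℤ Ψ).natAbs := by
      have h5 := Int.natAbs_dvd_natAbs.mpr h3
      rw [Int.natAbs_mul, h2] at h5
      exact h5
    have h5 : ℓ ∣ (Algebra.norm ℤ Ψ).natAbs := by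
      rw [mul_comm ℓ q] at h4
      exact Nat.dvd_of_mul_dvd_mul_left (by omega) h4
    exact Int.natCast_dvd.mpr h5
  · refine key Φ dvd_rfl hc ?_
    refine dvd_trans ?_ hdiv
    exact ⟨(q : ℤ), by push_cast; ring⟩

end

end Pool.Agent.Lib.MP_1a91b9_nuT.DB
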