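import Mathlib

/-!
# DB: the multiplicative group modulo `ℓ`-th powers (curve-free half)
-/

set_option autoImplicit false

namespace Pool.Agent.Lib.MP_1a91b9_nuT.DB

open NumberField IsDedekindDomain

universe u

noncomputable section

/-- `Fˣ` modulo `ℓ`-th powers, written additively -/
abbrev El (ℓ : ℕ) (F : Type u) [Field F] : Type u :=
  Additive Fˣ ⧸ (nsmulAddMonoidHom (α := Additive Fˣ) ℓ).range

/-- the class of `y` -/
def el (ℓ : ℕ) {F : Type u} [Field F] (y : Fˣ) : El ℓ F := QuotientAddGroup.mk (Additive.ofMul y)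

section
variable {ℓ : ℕ} {F : Type u} [Field F]

theorem el_surj (x : El ℓ F) : ∃ y : Fˣ, el ℓ y = x := by
  obtain ⟨z, hz⟩ := QuotientAddGroup.mk_surjective x
  exact ⟨Additive.toMul z, hz⟩

theorem el_mul (a b : Fˣ) : el ℓ (a * b) = el ℓ a + el ℓ b := by
  unfold el
  rw [ofMul_mul, QuotientAddGroup.mk_add]

theorem el_one : el ℓ (1 : Fˣ) = 0 := by
  unfold el
  rw [ofMul_one, QuotientAddGroup.mk_zero]

theorem el_inv (a : Fˣ) : el ℓ a⁻¹ = -el ℓ a := by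
  unfold el
  rw [ofMul_inv, QuotientAddGroup.mk_neg]

theorem el_zpow (a : Fˣ) (n : ℤ) : el ℓ (a ^ n) = n • el ℓ a := by
  unfold el
  rw [ofMul_zpow, QuotientAddGroup.mk_zsmul]

theorem el_pow (a : Fˣ) (n : ℕ) : el ℓ (a ^ n) = n • el ℓ a := by
  unfold el
  rw [ofMul_pow, QuotientAddGroup.mk_nsmul]

theorem el_prod {ι : Type*} (s : Finset ι) (f : ι → Fˣ) :
    el ℓ (∏ i ∈ s, f i) = ∑ i ∈ s, el ℓ (f i) := by
  classical
  induction s using Finset.induction_on with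
  | empty => rw [Finset.prod_empty, Finset.sum_empty, el_one]
  | insert i s hi ih => rw [Finset.prod_insert hi, Finset.sum_insert hi, el_mul, ih]

theorem el_eq_zero {y : Fˣ} : el ℓ y = 0 ↔ ∃ z : Fˣ, y = z ^ ℓ := by
  unfold el
  rw [QuotientAddGroup.eq_zero_iff, AddMonoidHom.mem_range]
  constructor
  · rintro ⟨z, hz⟩
    refine ⟨Additive.toMul z, ?_⟩
    have := congrArg Additive.toMul hz
    rw [toMul_ofMul, nsmulAddMonoidHom_apply, toMul_nsmul] at this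
    exact this.symm
  · rintro ⟨z, hz⟩
    refine ⟨Additive.ofMul z, ?_⟩
    rw [nsmulAddMonoidHom_apply, ← ofMul_pow, hz]

theorem el_eq {a b : Fˣ} : el ℓ a = el ℓ b ↔ ∃ z : Fˣ, a = b * z ^ ℓ := by
  rw [← sub_eq_zero, sub_eq_add_neg, ← el_inv, ← el_mul, el_eq_zero]
  constructor
  · rintro ⟨z, hz⟩
    refine ⟨z, ?_⟩
    rw [← hz, mul_comm a, mul_inv_cancel_left]
  · rintro ⟨z, hz⟩
    refine ⟨z, ?_⟩
    rw [hz, mul_comm b, mul_inv_cancel_right]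

theorem nsmul_el (x : El ℓ F) : ℓ • x = 0 := by
  obtain ⟨y, rfl⟩ := el_surj x
  rw [← el_pow, el_eq_zero]
  exact ⟨y, rfl⟩

theorem zsmul_el {n : ℤ} (hn : (ℓ : ℤ) ∣ n) (x : El ℓ F) : n • x = 0 := by
  obtain ⟨m, rfl⟩ := hn
  obtain ⟨y, rfl⟩ := el_surj x
  rw [← el_zpow, el_eq_zero]
  exact ⟨y ^ m, by rw [← zpow_natCast, ← zpow_mul, mul_comm]⟩

/-- an integer prime to `ℓ` is invertible on the elements -/
theorem el_coprime {n : ℤ} (hn : IsCoprime n (ℓ : ℤ)) {x : El ℓ F} (h : n • x = 0) : x = 0 := by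
  obtain ⟨a, b, hab⟩ := hn
  obtain ⟨y, rfl⟩ := el_surj x
  rw [← el_zpow, el_eq_zero] at h
  obtain ⟨z, hz⟩ := h
  rw [el_eq_zero]
  refine ⟨z ^ a * y ^ b, ?_⟩
  calc y = y ^ (a * n + b * (ℓ : ℤ)) := by rw [hab, zpow_one]
    _ = (y ^ n) ^ a * (y ^ b) ^ ℓ := by
      rw [zpow_add, mul_comm a n, zpow_mul, zpow_mul, zpow_natCast]
    _ = (z ^ a * y ^ b) ^ ℓ := by
      rw [hz, mul_pow, ← zpow_natCast, ← zpow_natCast (z ^ a), ← zpow_mul, ← zpow_mul, mul_comm a]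

/-- `a` is an `ℓ`-th power if a power of exponent prime to `ℓ` is -/
theorem pow_coprime {n : ℕ} (hn : n.Coprime ℓ) {a : Fˣ} (h : ∃ z : Fˣ, a ^ n = z ^ ℓ) :
    ∃ z : Fˣ, a = z ^ ℓ := by
  rw [← el_eq_zero] at h ⊢
  rw [el_pow] at h
  refine el_coprime (n := (n : ℤ)) (Nat.isCoprime_iff_coprime.mpr hn) ?_
  rw [natCast_zsmul, h]

end

section
variable {k N : Type u} [Field k] [Field N] [Algebra k N]

/-- the image of a unit under an automorphism -/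
def sg (σ : Gal(N/k)) (y : Nˣ) : Nˣ := Units.map (σ : N →* N) y

theorem sg_coe (σ : Gal(N/k)) (y : Nˣ) : ((sg σ y : Nˣ) : N) = σ (y : N) := rfl

theorem sg_mul (σ : Gal(N/k)) (a b : Nˣ) : sg σ (a * b) = sg σ a * sg σ b := map_mul _ _ _

theorem sg_pow (σ : Gal(N/k)) (a : Nˣ) (n : ℕ) : sg σ (a ^ n) = sg σ a ^ n := map_pow _ _ _

theorem sg_inv (σ : Gal(N/k)) (a : Nˣ) : sg σ a⁻¹ = (sg σ a)⁻¹ := map_inv _ _

theorem sg_sg (σ τ : Gal(N/k)) (a : Nˣ) : sg (σ * τ) a = sg σ (sg τ a) := rfl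

end

/-- the local condition at `w` -/
def WLoc {N : Type u} [Field N] [NumberField N] (ℓ : ℕ) (w : HeightOneSpectrum (𝓞 N)) (y : N) :
    Prop :=
  ∃ b c : N, w.valuation N (y * b ^ ℓ) = 1 ∧
    w.valuation N (y * b ^ ℓ - c ^ ℓ) ≤ WithZero.exp (-2 : ℤ)

end

end Pool.Agent.Lib.MP_1a91b9_nuT.DB
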