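import Pool.Agent.Lib.MP_1a91b9_nuT.DB.Od

/-!
# DB: Thaine's argument (abstract form)

PROOF (complete; stream DB of helper55). Jobs TnA (`autZ_res`, `od_gen`), TnB (`thaine`).

`L/N` cyclic with generator `τ`.
`autZ_res`: `W` totally ramified over `N` (`e = [L:N]`; then `f = 1` and every `σ` fixes `W`), `u` with
`od W u = 0`: `W.valuation (σ u - u) < 1`: `f = 1` so `u` is congruent modulo `W` to an element `x` of
`N` (`exists_val_lt_of_int` and the surjectivity of the residue map as in `res_field`; if `Ram` is not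
imported, prove it: the residue field extension has degree `f = 1`), `σ x = x`, `gpl σ W = W`
(`gpl_under`, only one place above), `gpl_val`.
`od_gen`: if `od W (τ z) = od W z` for all `W` then `od W z` depends only on the place below: `gpl_od`
gives `od (gpl τ W) (τ z) = od W z`, so `od (gpl τ W) z = od W z`; powers of `τ`, `gpl_trans`.
`thaine`. Hilbert 90 (`CF.hilbert90` with `Additive.ofMul`): `y = τ z / z`, `z ≠ 0`. `y` is a unit at all `W`
so `od W (τ z) = od W z`, `od_gen`: `od W z = c (W.under)`, and `a v = c v` (for `v` below some `W`, all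
places are: `exists_over` or `Ideal` lying over).
Congruence: `W` above `v ∈ Z`, `a = a v`; `z = t^a u`, `u = z t^(-a)`, `od W u = 0`; `τ z / z = (τ t/t)^a
(τ u/u)`, `τ u/u = 1` modulo `W` (`autZ_res`), `τ t/t = b` modulo `W` (from `hZ`: divide by `t`;
it is a unit), so `τ z/z = b^a` modulo `W`.
Sum: `x = Algebra.norm N z` as a unit of `N`. `od_norm`: for `W` above `v`:
`e od v x = ∑_σ od (gpl σ W) z = [L:N] a v`. So `od v x = ([L:N]/e) a v`. For `v ∈ Z`: `= a v`. For `v ∉ Z`:
`h v = 0`, or `ℓ ∤ e` and then `ℓ ∣ [L:N] a v = e od v x` so `ℓ ∣ od v x`, and `od v x • h v = 0` in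
`ZMod ℓ`. So `0 = ∑ᶠ od v x • h v = ∑_{v ∈ Z} a v h v` (`finsum_eq_sum_of_support_subset`).
-/

set_option autoImplicit false

namespace Pool.Agent.Lib.MP_1a91b9_nuT.DB

variable [CD]

open NumberField IsDedekindDomain

universe u

noncomputable section

/-- the function `h` vanishes on principal divisors -/
def PrincZero {N : Type u} [Field N] [NumberField N] {ℓ : ℕ}
    (h : HeightOneSpectrum (𝓞 N) → ZMod ℓ) : Prop :=
  ∀ x : N, x ≠ 0 → ∑ᶠ v : HeightOneSpectrum (𝓞 N), od v x • h v = 0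

section
variable {N L : Type u} [Field N] [NumberField N] [Field L] [NumberField L] [Algebra N L]
  [IsGalois N L]

omit [IsGalois N L] in
private theorem tna_surj (W : HeightOneSpectrum (𝓞 L)) (hf : W.asIdeal.inertiaDeg (𝓞 N) = 1)
    (y : 𝓞 L) : ∃ x : 𝓞 N, y - algebraMap (𝓞 N) (𝓞 L) x ∈ W.asIdeal := by
  have hWm : W.asIdeal.IsMaximal := W.isMaximal
  have hvm : (W.under (𝓞 N)).asIdeal.IsMaximal := (W.under (𝓞 N)).isMaximal
  have hlo : W.asIdeal.LiesOver (W.under (𝓞 N)).asIdeal := ⟨rfl⟩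
  have h1 := Ideal.inertiaDeg_eq_of_isMaximal (W.under (𝓞 N)).asIdeal W.asIdeal
  rw [hf] at h1
  let _ : Field (𝓞 N ⧸ (W.under (𝓞 N)).asIdeal) := Ideal.Quotient.field _
  have h2 := Subalgebra.bot_eq_top_of_finrank_eq_one h1.symm
  have h3 : Ideal.Quotient.mk W.asIdeal y ∈
      (⊥ : Subalgebra (𝓞 N ⧸ (W.under (𝓞 N)).asIdeal) (𝓞 L ⧸ W.asIdeal)) := by
    rw [h2]
    exact Algebra.mem_top
  obtain ⟨z, hz⟩ := Algebra.mem_bot.1 h3
  obtain ⟨x, rfl⟩ := Ideal.Quotient.mk_surjective z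
  refine ⟨x, ?_⟩
  rw [← Ideal.Quotient.eq, ← hz]
  rfl

omit [IsGalois N L] in
private theorem tna_res (W : HeightOneSpectrum (𝓞 L)) (hf : W.asIdeal.inertiaDeg (𝓞 N) = 1) {a : L}
    (ha : W.valuation L a ≤ 1) : ∃ x : 𝓞 N, W.valuation L (a - algebraMap N L (x : N)) < 1 := by
  obtain ⟨y, hy⟩ := exists_val_lt_of_int W ha 1
  obtain ⟨x, hx⟩ := tna_surj W hf y
  refine ⟨x, ?_⟩
  have h1 : W.valuation L (a - (y : L)) < 1 := by
    refine lt_of_le_of_lt hy ?_
    rw [← WithZero.exp_zero, WithZero.exp_lt_exp]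
    norm_num
  have h2 : W.valuation L ((y : L) - algebraMap N L (x : N)) < 1 := by
    have h3 : ((y - algebraMap (𝓞 N) (𝓞 L) x : 𝓞 L) : L) = (y : L) - algebraMap N L (x : N) := by
      push_cast
      rfl
    rw [← h3]
    exact (W.valuation_lt_one_iff_mem (K := L) _).2 hx
  have h4 : a - algebraMap N L (x : N) = (a - (y : L)) + ((y : L) - algebraMap N L (x : N)) := by
    ring
  rw [h4]
  exact lt_of_le_of_lt ((W.valuation L).map_add _ _) (max_lt h1 h2)

private theorem tna_num {n g f : ℕ} (hn : 0 < n) (h2 : g * (n * f) = n) : g = 1 ∧ f = 1 := by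
  have e3 : g * f = 1 := by
    have h5 : n * (g * f) = n * 1 := by
      calc n * (g * f) = g * (n * f) := by ring
        _ = n * 1 := by rw [h2, mul_one]
    exact Nat.eq_of_mul_eq_mul_left hn h5
  exact ⟨Nat.eq_one_of_mul_eq_one_right e3, Nat.eq_one_of_mul_eq_one_left e3⟩

theorem autZ_res (W : HeightOneSpectrum (𝓞 L))
    (hW : W.asIdeal.ramificationIdx (𝓞 N) = Module.finrank N L) (σ : Gal(L/N)) {u : L}
    (hu : W.valuation L u = 1) : gpl σ W = W ∧ W.valuation L (σ u - u) < 1 := by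
  have hvm : (W.under (𝓞 N)).asIdeal.IsMaximal := (W.under (𝓞 N)).isMaximal
  have hlo : W.asIdeal.LiesOver (W.under (𝓞 N)).asIdeal := ⟨rfl⟩
  have hWp : W.asIdeal.IsPrime := W.isPrime
  have hfund := Ideal.ncard_primesOver_mul_ramificationIdxIn_mul_inertiaDegIn
    (W.under (𝓞 N)).asIdeal (𝓞 L) Gal(L/N)
  rw [IsGalois.card_aut_eq_finrank,
    Ideal.ramificationIdxIn_eq_ramificationIdx (W.under (𝓞 N)).asIdeal W.asIdeal Gal(L/N),
    Ideal.inertiaDegIn_eq_inertiaDeg (W.under (𝓞 N)).asIdeal W.asIdeal Gal(L/N), hW] at hfund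
  obtain ⟨hg, hf⟩ := tna_num Module.finrank_pos hfund
  have hfix : gpl σ W = W := by
    obtain ⟨P, hP⟩ := Set.ncard_eq_one.mp hg
    have hm : ∀ W' : HeightOneSpectrum (𝓞 L), W'.under (𝓞 N) = W.under (𝓞 N) →
        W'.asIdeal = P := by
      intro W' hW'
      have h1 : W'.asIdeal ∈ (W.under (𝓞 N)).asIdeal.primesOver (𝓞 L) :=
        ⟨W'.isPrime, ⟨by rw [← hW']; rfl⟩⟩
      rw [hP] at h1
      exact h1
    apply HeightOneSpectrum.ext
    rw [hm W rfl, hm (gpl σ W) (gpl_under σ W)]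
  refine ⟨hfix, ?_⟩
  obtain ⟨x, hx⟩ := tna_res W hf hu.le
  have h1 : W.valuation L (σ u - algebraMap N L (x : N)) < 1 := by
    have h2 := gpl_val σ W (u - algebraMap N L (x : N))
    rw [hfix, map_sub, AlgEquiv.commutes] at h2
    rw [h2]
    exact hx
  have h3 : σ u - u = (σ u - algebraMap N L (x : N)) - (u - algebraMap N L (x : N)) := by ring
  rw [h3]
  exact lt_of_le_of_lt ((W.valuation L).map_sub _ _) (max_lt h1 hx)

theorem od_gen {τ : Gal(L/N)} (hτ : ∀ σ : Gal(L/N), σ ∈ Subgroup.zpowers τ) {z : L}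
    (hz : ∀ W : HeightOneSpectrum (𝓞 L), od W (τ z) = od W z) {W W' : HeightOneSpectrum (𝓞 L)}
    (hWW' : W.under (𝓞 N) = W'.under (𝓞 N)) : od W z = od W' z := by
  obtain ⟨σ, hσ⟩ := gpl_trans W W' hWW'
  let S : Subgroup Gal(L/N) :=
    { carrier := {σ | ∀ V : HeightOneSpectrum (𝓞 L), od (gpl σ V) z = od V z}
      mul_mem' := by
        intro a b ha hb V
        rw [gpl_mul, ha, hb]
      one_mem' := by
        intro V
        rw [gpl_one]
      inv_mem' := by
        intro a ha V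
        have h1 := ha (gpl a⁻¹ V)
        rw [← gpl_mul, mul_inv_cancel, gpl_one] at h1
        exact h1.symm }
  have hS : Subgroup.zpowers τ ≤ S := by
    rw [Subgroup.zpowers_le]
    intro V
    rw [← hz, gpl_od]
  have h1 := hS (hτ σ) W
  rw [hσ] at h1
  exact h1.symm

private theorem tnb_val_ne {F : Type u} [Field F] [NumberField F] (w : HeightOneSpectrum (𝓞 F))
    {a : F} (h : w.valuation F a = 1) : a ≠ 0 := by
  intro h0
  rw [h0, map_zero] at h
  exact zero_ne_one h

private theorem tnb_pow {F : Type u} [Field F] [NumberField F] (w : HeightOneSpectrum (𝓞 F))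
    {c b : F} (hc : w.valuation F c = 1) (hb : w.valuation F b = 1)
    (h : w.valuation F (c - b) < 1) (n : ℕ) : w.valuation F (c ^ n - b ^ n) < 1 := by
  induction n with
  | zero => simp
  | succ n ih =>
    have e : c ^ (n + 1) - b ^ (n + 1) = c * (c ^ n - b ^ n) + (c - b) * b ^ n := by ring
    rw [e]
    refine lt_of_le_of_lt ((w.valuation F).map_add _ _) (max_lt ?_ ?_)
    · rw [map_mul, hc, one_mul]
      exact ih
    · rw [map_mul, map_pow, hb, one_pow, mul_one]
      exact h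

private theorem tnb_zpow {F : Type u} [Field F] [NumberField F] (w : HeightOneSpectrum (𝓞 F))
    {c b : F} (hc : w.valuation F c = 1) (hb : w.valuation F b = 1)
    (h : w.valuation F (c - b) < 1) (n : ℤ) : w.valuation F (c ^ n - b ^ n) < 1 := by
  have hc0 := tnb_val_ne w hc
  have hb0 := tnb_val_ne w hb
  obtain ⟨m, hm | hm⟩ := Int.eq_nat_or_neg n
  · rw [hm, zpow_natCast, zpow_natCast]
    exact tnb_pow w hc hb h m
  · rw [hm, zpow_neg, zpow_neg, zpow_natCast, zpow_natCast]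
    have e : (c ^ m)⁻¹ - (b ^ m)⁻¹ = -((c ^ m)⁻¹ * (b ^ m)⁻¹ * (c ^ m - b ^ m)) := by
      field_simp
      ring
    rw [e, Valuation.map_neg, map_mul, map_mul, map_inv₀, map_inv₀, map_pow, map_pow, hc, hb,
      one_pow, inv_one, one_mul, one_mul]
    exact tnb_pow w hc hb h m

/-- Thaine's relation between the reductions of a unit of relative norm one -/
theorem thaine {ℓ : ℕ} [Fact ℓ.Prime] (hn : ℓ ∣ Module.finrank N L) {τ : Gal(L/N)}
    (hτ : ∀ σ : Gal(L/N), σ ∈ Subgroup.zpowers τ) {y : L} (hy : Algebra.norm N y = 1)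
    (hyu : ∀ W : HeightOneSpectrum (𝓞 L), W.valuation L y = 1)
    (Z : Finset (HeightOneSpectrum (𝓞 N))) {t : L} {b : ℤ}
    (hZ : ∀ W : HeightOneSpectrum (𝓞 L), W.under (𝓞 N) ∈ Z →
      W.asIdeal.ramificationIdx (𝓞 N) = Module.finrank N L ∧ od W t = 1 ∧
        W.valuation L (τ t - b * t) < W.valuation L t)
    {h : HeightOneSpectrum (𝓞 N) → ZMod ℓ} (hh : PrincZero h)
    (h0 : ∀ W : HeightOneSpectrum (𝓞 L), W.under (𝓞 N) ∉ Z →
      h (W.under (𝓞 N)) = 0 ∨ ¬ ℓ ∣ W.asIdeal.ramificationIdx (𝓞 N)) :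
    ∃ a : HeightOneSpectrum (𝓞 N) → ℤ, (∀ W : HeightOneSpectrum (𝓞 L), W.under (𝓞 N) ∈ Z →
      W.valuation L (y - (b : L) ^ a (W.under (𝓞 N))) < 1) ∧
      ∑ v ∈ Z, (a v : ZMod ℓ) * h v = 0 := by
  classical
  have hy0 : y ≠ 0 := by
    intro h0
    rw [h0, Algebra.norm_zero] at hy
    exact zero_ne_one hy
  -- Hilbert 90
  obtain ⟨z, hz0, hyz⟩ : ∃ z : L, z ≠ 0 ∧ τ z = y * z := by
    have h1 : CF.nmA N L (Additive.ofMul (Units.mk0 y hy0)) = 0 := by
      apply Additive.toMul.injective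
      apply Units.ext
      exact hy
    obtain ⟨z, hz⟩ := CF.hilbert90 N L τ hτ _ h1
    have h2 : Additive.ofMul (Units.mk0 y hy0) + z = CF.autA τ z := by
      rw [hz, sub_add_cancel]
    refine ⟨((Additive.toMul z : Lˣ) : L), Units.ne_zero _, ?_⟩
    have h3 := congrArg (fun w : Additive Lˣ => ((Additive.toMul w : Lˣ) : L)) h2
    exact h3.symm
  have hod : ∀ W : HeightOneSpectrum (𝓞 L), od W (τ z) = od W z := by
    intro W
    rw [hyz, od_mul W hy0 hz0, (val_eq_one_iff W hy0).1 (hyu W), zero_add]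
  let a : HeightOneSpectrum (𝓞 N) → ℤ := fun v =>
    if hv : ∃ W : HeightOneSpectrum (𝓞 L), W.under (𝓞 N) = v then od hv.choose z else 0
  have ha : ∀ W : HeightOneSpectrum (𝓞 L), a (W.under (𝓞 N)) = od W z := by
    intro W
    have hv : ∃ W' : HeightOneSpectrum (𝓞 L), W'.under (𝓞 N) = W.under (𝓞 N) := ⟨W, rfl⟩
    have h1 : a (W.under (𝓞 N)) = od hv.choose z := dif_pos hv
    rw [h1]
    exact od_gen hτ hod hv.choose_spec
  refine ⟨a, ?_, ?_⟩
  · intro W hW
    obtain ⟨he, ht1, ht2⟩ := hZ W hW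
    have hone : W.valuation L (1 : L) = 1 := map_one _
    have hfix := (autZ_res W he τ hone).1
    have ht0 : t ≠ 0 := by
      intro h0
      rw [h0] at ht1
      unfold od at ht1
      rw [map_zero, WithZero.log_zero] at ht1
      norm_num at ht1
    have hτt : W.valuation L (τ t) = W.valuation L t := by
      have h1 := gpl_val τ W t
      rwa [hfix] at h1
    have hvt : W.valuation L t ≠ 0 := (Valuation.ne_zero_iff _).2 ht0
    have hvt' : 0 < W.valuation L t := zero_lt_iff.2 hvt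
    have hc : W.valuation L (τ t / t) = 1 := by
      rw [map_div₀, hτt, div_self hvt]
    have hcb : W.valuation L (τ t / t - b) < 1 := by
      have e : τ t / t - b = (τ t - b * t) / t := by
        field_simp
      rw [e, map_div₀, div_lt_one₀ hvt']
      exact ht2
    have hb : W.valuation L (b : L) = 1 := by
      have e : (b : L) = τ t / t - (τ t / t - b) := by ring
      rw [e, Valuation.map_sub_eq_of_lt_left, hc]
      rw [hc]
      exact hcb
    rw [ha W]
    obtain ⟨n, hn'⟩ : ∃ n : ℤ, n = od W z := ⟨_, rfl⟩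
    rw [← hn']
    have htn : t ^ n ≠ 0 := zpow_ne_zero _ ht0
    have hu0 : z * (t ^ n)⁻¹ ≠ 0 := mul_ne_zero hz0 (inv_ne_zero htn)
    have hu : W.valuation L (z * (t ^ n)⁻¹) = 1 := by
      rw [val_eq_one_iff W hu0, od_mul W hz0 (inv_ne_zero htn), od_inv, od_zpow, ht1, ← hn']
      ring
    have hu2 := (autZ_res W he τ hu).2
    have hu3 : W.valuation L (τ (z * (t ^ n)⁻¹) / (z * (t ^ n)⁻¹) - 1) < 1 := by
      have e : τ (z * (t ^ n)⁻¹) / (z * (t ^ n)⁻¹) - 1
          = (τ (z * (t ^ n)⁻¹) - z * (t ^ n)⁻¹) / (z * (t ^ n)⁻¹) := by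
        rw [sub_div, div_self hu0]
      rw [e, map_div₀, hu, div_one]
      exact hu2
    have hyc : y = (τ t / t) ^ n * (τ (z * (t ^ n)⁻¹) / (z * (t ^ n)⁻¹)) := by
      have hτtn : τ (t ^ n) ≠ 0 := by
        rw [Ne, map_eq_zero]
        exact htn
      rw [div_zpow, ← map_zpow₀, map_mul, map_inv₀, hyz]
      field_simp
    have e2 : y - (b : L) ^ n = (τ t / t) ^ n * (τ (z * (t ^ n)⁻¹) / (z * (t ^ n)⁻¹) - 1)
        + ((τ t / t) ^ n - (b : L) ^ n) := by
      rw [hyc]
      ring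
    rw [e2]
    refine lt_of_le_of_lt ((W.valuation L).map_add _ _) (max_lt ?_ ?_)
    · rw [map_mul, map_zpow₀, hc, one_zpow, one_mul]
      exact hu3
    · exact tnb_zpow W hc hb hcb n
  · have hx0 : Algebra.norm N z ≠ 0 := Algebra.norm_ne_zero_iff.2 hz0
    have hover : ∀ v : HeightOneSpectrum (𝓞 N), ∃ W : HeightOneSpectrum (𝓞 L),
        W.under (𝓞 N) = v := by
      intro v
      have hvm : v.asIdeal.IsMaximal := v.isMaximal
      obtain ⟨Q, hQ1, hQ2⟩ := (inferInstance : Nonempty (v.asIdeal.primesOver (𝓞 L)))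
      have hQ0 : Q ≠ ⊥ := by
        intro h
        have h1 := hQ2.over
        rw [h] at h1
        exact v.ne_bot (h1.trans (Ideal.comap_bot_of_injective _
          (FaithfulSMul.algebraMap_injective (𝓞 N) (𝓞 L))))
      exact ⟨⟨Q, hQ1, hQ0⟩, HeightOneSpectrum.ext hQ2.over.symm⟩
    have hkey : ∀ W : HeightOneSpectrum (𝓞 L), (W.asIdeal.ramificationIdx (𝓞 N) : ℤ) *
        od (W.under (𝓞 N)) (Algebra.norm N z) = (Module.finrank N L : ℤ) * a (W.under (𝓞 N)) := by
      intro W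
      rw [od_norm (W.under (𝓞 N)) z hz0 W rfl]
      have h1 : ∀ σ ∈ (Finset.univ : Finset Gal(L/N)), od (gpl σ W) z = a (W.under (𝓞 N)) := by
        intro σ _
        rw [← ha (gpl σ W), gpl_under]
      rw [Finset.sum_congr rfl h1, Finset.sum_const, Finset.card_univ, nsmul_eq_mul,
        ← Nat.card_eq_fintype_card, IsGalois.card_aut_eq_finrank]
    have hpos : 0 < Module.finrank N L := Module.finrank_pos
    have hsupp : (Function.support fun v : HeightOneSpectrum (𝓞 N) =>
        od v (Algebra.norm N z) • h v) ⊆ (Z : Set (HeightOneSpectrum (𝓞 N))) := by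
      intro v hv
      by_contra hvZ
      apply hv
      obtain ⟨W, hW⟩ := hover v
      have hvZ' : v ∉ Z := hvZ
      have h1 := h0 W (by rw [hW]; exact hvZ')
      have h2 := hkey W
      rw [hW] at h1 h2
      rcases h1 with h1 | h1
      · simp only [h1, smul_zero]
      · have h3 : (ℓ : ℤ) ∣ (W.asIdeal.ramificationIdx (𝓞 N) : ℤ) * od v (Algebra.norm N z) := by
          rw [h2]
          exact Dvd.dvd.mul_right (Int.natCast_dvd_natCast.2 hn) _
        have hp : Prime (ℓ : ℤ) := Nat.prime_iff_prime_int.1 (Fact.out : ℓ.Prime)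
        rcases hp.dvd_or_dvd h3 with h4 | h4
        · exact absurd (Int.natCast_dvd_natCast.1 h4) h1
        · simp only
          rw [zsmul_eq_mul, (ZMod.intCast_zmod_eq_zero_iff_dvd _ ℓ).2 h4, zero_mul]
    have hfin := hh (Algebra.norm N z) hx0
    rw [finsum_eq_sum_of_support_subset _ hsupp] at hfin
    rw [← hfin]
    refine Finset.sum_congr rfl fun v hv => ?_
    obtain ⟨W, hW⟩ := hover v
    have h1 := (hZ W (by rw [hW]; exact hv)).1
    have h2 := hkey W
    rw [hW, h1] at h2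
    have h3 : od v (Algebra.norm N z) = a v :=
      mul_left_cancel₀ (by exact_mod_cast hpos.ne') h2
    rw [h3, zsmul_eq_mul]

end

end

end Pool.Agent.Lib.MP_1a91b9_nuT.DB
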