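import Mathlib

/-!
# Products of units which are congruent
-/

set_option autoImplicit false

namespace Pool.Agent.Lib.MP_1a91b9_nuT.DB

universe u

noncomputable section

section
variable {F : Type u} [Field F] {Γ : Type*} [LinearOrderedCommGroupWithZero Γ] (v : Valuation F Γ)

theorem yya_mul {x y z w : F} (hx : v x = 1) (hw : v w = 1) (h1 : v (x - y) < 1)
    (h2 : v (z - w) < 1) : v (x * z - y * w) < 1 := by
  have e : x * z - y * w = x * (z - w) + (x - y) * w := by ring
  rw [e]
  refine lt_of_le_of_lt (v.map_add _ _) (max_lt ?_ ?_)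
  · rw [map_mul, hx, one_mul]
    exact h2
  · rw [map_mul, hw, mul_one]
    exact h1

theorem yya_inv {x y : F} (hx : v x = 1) (hy : v y = 1) (h1 : v (x - y) < 1) :
    v (x⁻¹ - y⁻¹) < 1 := by
  have hx0 : x ≠ 0 := by
    rintro rfl
    rw [map_zero] at hx
    exact zero_ne_one hx
  have hy0 : y ≠ 0 := by
    rintro rfl
    rw [map_zero] at hy
    exact zero_ne_one hy
  have e : x⁻¹ - y⁻¹ = -(x - y) * (x⁻¹ * y⁻¹) := by
    field_simp
    ring
  rw [e, map_mul, map_mul, map_inv₀, map_inv₀, hx, hy, inv_one, mul_one, mul_one, Valuation.map_neg]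
  exact h1

theorem yya_pow {x y : F} (hx : v x = 1) (hy : v y = 1) (h1 : v (x - y) < 1) (m : ℕ) :
    v (x ^ m - y ^ m) < 1 := by
  induction m with
  | zero => rw [pow_zero, pow_zero, sub_self, map_zero]; exact zero_lt_one
  | succ m ih =>
    rw [pow_succ, pow_succ]
    exact yya_mul v (by rw [map_pow, hx, one_pow]) hy ih h1

theorem yya_zpow {x y : F} (hx : v x = 1) (hy : v y = 1) (h1 : v (x - y) < 1) (m : ℤ) :
    v (x ^ m - y ^ m) < 1 := by
  obtain ⟨k, rfl | rfl⟩ := m.eq_nat_or_neg
  · rw [zpow_natCast, zpow_natCast]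
    exact yya_pow v hx hy h1 k
  · rw [zpow_neg, zpow_neg, zpow_natCast, zpow_natCast]
    exact yya_inv v (by rw [map_pow, hx, one_pow]) (by rw [map_pow, hy, one_pow])
      (yya_pow v hx hy h1 k)

theorem yya_val_zpow {x : F} (hx : v x = 1) (m : ℤ) : v (x ^ m) = 1 := by
  rw [map_zpow₀, hx, one_zpow]

theorem yya_prod {ι : Type*} (s : Finset ι) (f g : ι → F) (hf : ∀ i ∈ s, v (f i) = 1)
    (hg : ∀ i ∈ s, v (g i) = 1) (h : ∀ i ∈ s, v (f i - g i) < 1) :
    v (∏ i ∈ s, f i - ∏ i ∈ s, g i) < 1 := by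
  classical
  induction s using Finset.induction_on with
  | empty => rw [Finset.prod_empty, Finset.prod_empty, sub_self, map_zero]; exact zero_lt_one
  | insert i s hi ih =>
    rw [Finset.prod_insert hi, Finset.prod_insert hi]
    refine yya_mul v (hf i (Finset.mem_insert_self _ _)) ?_ (h i (Finset.mem_insert_self _ _))
      (ih (fun j hj => hf j (Finset.mem_insert_of_mem hj))
        (fun j hj => hg j (Finset.mem_insert_of_mem hj))
        (fun j hj => h j (Finset.mem_insert_of_mem hj)))
    rw [map_prod]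
    exact Finset.prod_eq_one fun j hj => hg j (Finset.mem_insert_of_mem hj)

end

end

end Pool.Agent.Lib.MP_1a91b9_nuT.DB
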